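import Pool.Agent.Helper13GL.Law

/-!
# Stable families of classes
-/

set_option autoImplicit false
set_option linter.unusedSectionVars false

open CategoryTheory Limits MonoidalCategory Module Filter Topology
open Pool.Agent.Y112.SR Pool.Agent.Y112.KD Pool.Agent.N64.AF Pool.Agent.N413.AFW
open scoped ENNReal

namespace Pool.Agent.Helper13GL

universe v u w t x

section

variable {C : Type u} [Category.{v} C] [Preadditive C] [MonoidalCategory C]
  [MonoidalPreadditive C] [SymmetricCategory C] [RightRigidCategory C]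
  {K : Type w} [Field K] {R : SuperRealisation C K}

lemma map_comp_zero {Y Z : C} (α : 𝟙_ C ⟶ Y) (h : R.H.map α = 0) (f : Y ⟶ Z) :
    R.H.map (α ≫ f) = 0 := by
  rw [Functor.map_comp, h, zero_comp]

lemma map_whiskerRight_zero {Y Z : C} (f : Y ⟶ Z) (h : R.H.map f = 0) (V : C) :
    R.H.map (f ▷ V) = 0 := by
  rw [Functor.Monoidal.map_whiskerRight, h]
  simp

/-- The morphism from the unit object attached to an endomorphism. -/
noncomputable def nmz {U V : C} [ExactPairing U V] (z : U ⟶ U) : 𝟙_ C ⟶ U ⊗ V :=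
  tensorRightHomEquiv (𝟙_ C) U V U ((λ_ U).hom ≫ z)

lemma nmz_comp {U V : C} [ExactPairing U V] (z w : U ⟶ U) :
    nmz (V := V) (z ≫ w) = nmz z ≫ (w ▷ V) := by
  simp [nmz, tensorRightHomEquiv]

lemma nmz_eq_zero {U V : C} [ExactPairing U V] {z : U ⟶ U} (h : nmz (V := V) z = 0) : z = 0 := by
  have h0 : nmz (V := V) (0 : U ⟶ U) = 0 := by
    simp [nmz, tensorRightHomEquiv]
  have h1 := (tensorRightHomEquiv (𝟙_ C) U V U).injective (h.trans h0.symm)
  rw [comp_zero] at h1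
  rw [← cancel_epi (λ_ U).hom, h1, comp_zero]

lemma map_nmz {U V : C} [ExactPairing U V] {z : U ⟶ U} (h : R.H.map z = 0) :
    R.H.map (nmz (V := V) z) = 0 := by
  have h1 : nmz (V := V) z = nmz (𝟙 U) ≫ (z ▷ V) := by
    rw [← nmz_comp, Category.id_comp]
  rw [h1, Functor.map_comp, map_whiskerRight_zero z h, comp_zero]

end

section main

variable {C : Type u} [Category.{v} C] [Preadditive C] [MonoidalCategory C]
  [MonoidalPreadditive C] [SymmetricCategory C] [RightRigidCategory C]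
  [Linear ℚ C] [MonoidalLinear ℚ C] [IsIdempotentComplete C]
  {K : Type w} [Field K] [IsAlgClosed K] [Algebra ℚ K] {R : SuperRealisation C K}

/-- Let `N` be a family of subspaces of the spaces of the classes which is stable under morphisms
and which contains the images of the homologically trivial classes under the homologically trivial
morphisms. If the dimensions of the spaces `N` grow at most like the numerical ranks then `T` is
Kimura-finite. -/
theorem kimura_of_family (hR : IsReal ℚ R) {T : C} (hT : R.CPlus T) (hb : 0 < bt R T)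
    (N : ∀ Z : C, Submodule ℚ ((homF ℚ (𝟙_ C)).obj Z)) (hN : IsStab (homF ℚ (𝟙_ C)) N)
    (h0 : ∀ {Y Z : C} (α : 𝟙_ C ⟶ Y) (f : Y ⟶ Z), R.H.map α = 0 → R.H.map f = 0 →
      ((α ≫ f : 𝟙_ C ⟶ Z) : (homF ℚ (𝟙_ C)).obj Z) ∈ N Z) {A : ℕ∞}
    (hA : RatioTo ℚ (T ⊗ Tᘁ) (fun n => dimE ℚ (N (tp (T ⊗ Tᘁ) n))) A) (hA' : A ≠ ⊤) :
    Pool.Agent.R905.IsKimuraFinite T := by
  obtain ⟨inst, hS⟩ := isPow_tensor_dual hR hT hb
  refine kimura_of_nil hR hT fun n y hy => ?_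
  obtain ⟨N', h1, -, h3⟩ := law hS (sub (homF ℚ (𝟙_ C)) N hN)
  have hN' : N' = A := by
    have h4 := tendsto_nhds_unique h1 hA
    exact_mod_cast h4
  let _ := pairTp T Tᘁ n
  let e := isoTp T Tᘁ n
  let Y : tp (T ⊗ Tᘁ) n ⟶ tp (T ⊗ Tᘁ) n := e.hom ≫ ((y : tp T n ⟶ tp T n) ▷ dp Tᘁ n) ≫ e.inv
  have hY : R.H.map Y = 0 := by
    change R.H.map (e.hom ≫ ((y : tp T n ⟶ tp T n) ▷ dp Tᘁ n) ≫ e.inv) = 0
    rw [Functor.map_comp, Functor.map_comp, map_whiskerRight_zero _ hy, zero_comp, comp_zero]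
  obtain ⟨k, hk⟩ := ((h3 (by rw [hN']; exact hA')).1 n).2.2 Y (numTriv_of_map hR hY)
  let z : ℕ → (𝟙_ C ⟶ tp (T ⊗ Tᘁ) n) := fun j =>
    nmz (V := dp Tᘁ n) ((y ^ (j + 1) : End (tp T n)) : tp T n ⟶ tp T n) ≫ e.inv
  have hz : ∀ j : ℕ, R.H.map (z j) = 0 := by
    intro j
    change R.H.map (nmz (V := dp Tᘁ n) ((y ^ (j + 1) : End (tp T n)) : tp T n ⟶ tp T n) ≫
      e.inv) = 0
    rw [Functor.map_comp, map_nmz, zero_comp]
    rw [pow_succ, End.mul_def, Functor.map_comp]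
    have h5 : R.H.map (y : tp T n ⟶ tp T n) = 0 := hy
    rw [h5, zero_comp]
  have hstep : ∀ j : ℕ, z j ≫ Y = z (j + 1) := by
    intro j
    change (nmz (V := dp Tᘁ n) ((y ^ (j + 1) : End (tp T n)) : tp T n ⟶ tp T n) ≫ e.inv) ≫
      e.hom ≫ ((y : tp T n ⟶ tp T n) ▷ dp Tᘁ n) ≫ e.inv =
      nmz (V := dp Tᘁ n) ((y ^ (j + 2) : End (tp T n)) : tp T n ⟶ tp T n) ≫ e.inv
    rw [Category.assoc, Iso.inv_hom_id_assoc, ← Category.assoc, ← nmz_comp, pow_succ' y (j + 1),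
      End.mul_def]
  have hmem : ∀ j : ℕ, (z (j + 1) : (homF ℚ (𝟙_ C)).obj (tp (T ⊗ Tᘁ) n)) ∈
      N (tp (T ⊗ Tᘁ) n) := by
    intro j
    have h5 := h0 (z j) Y (hz j) hY
    rwa [hstep j] at h5
  let F := sub (homF ℚ (𝟙_ C)) N hN
  let f : Module.End ℚ (F.obj (tp (T ⊗ Tᘁ) n)) := (F.map Y).hom
  let b : ℕ → F.obj (tp (T ⊗ Tᘁ) n) := fun j => (⟨z (j + 1), hmem j⟩ : N (tp (T ⊗ Tᘁ) n))
  have hf : ∀ j, f (b j) = b (j + 1) := fun j => Subtype.ext (hstep (j + 1))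
  have hpow : ∀ j : ℕ, (f ^ j) (b 0) = b j := by
    intro j
    induction j with
    | zero => rfl
    | succ j ih => rw [pow_succ', Module.End.mul_apply, ih, hf]
  refine ⟨k + 2, ?_⟩
  have h7 := hpow k
  have hk' : f ^ k = 0 := hk
  rw [hk', LinearMap.zero_apply] at h7
  have h8 : nmz (V := dp Tᘁ n) ((y ^ (k + 1 + 1) : End (tp T n)) : tp T n ⟶ tp T n) ≫ e.inv = 0 :=
    (congrArg (fun q : N (tp (T ⊗ Tᘁ) n) => (q.1 : 𝟙_ C ⟶ tp (T ⊗ Tᘁ) n)) h7).symm
  have h9 : nmz (V := dp Tᘁ n) ((y ^ (k + 1 + 1) : End (tp T n)) : tp T n ⟶ tp T n) = 0 := by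
    rw [← cancel_mono e.inv, h8, zero_comp]
  exact nmz_eq_zero h9

end main

end Pool.Agent.Helper13GL
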