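import Pool.Agent.Helper13GL.Mot

/-!
# Objects with a group action
-/

set_option autoImplicit false
set_option linter.unusedSectionVars false

open CategoryTheory Limits MonoidalCategory Module Filter Topology
open Pool.Agent.Y112.SR Pool.Agent.Y112.KD Pool.Agent.N64.AF Pool.Agent.N413.AFW
open Pool.Agent.Y116.MT (tr)
open scoped ENNReal

namespace Pool.Agent.Helper13GL

universe v u w t x

section

variable {C : Type u} [Category.{v} C] [Preadditive C] [MonoidalCategory C]
  [MonoidalPreadditive C] [SymmetricCategory C]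
  {K : Type w} [Field K] (G : Type) [Group G]

lemma mu_forget (R : SuperRealisation C K) (X Y : Action C G) :
    Functor.LaxMonoidal.μ (Action.forget C G ⋙ R.H) X Y =
      Functor.LaxMonoidal.μ R.H X.V Y.V := by
  have h : R.H.map (𝟙 (X.V ⊗ Y.V)) = 𝟙 _ := R.H.map_id _
  have h1 : Functor.LaxMonoidal.μ R.H X.V Y.V ≫ R.H.map (𝟙 (X.V ⊗ Y.V)) =
      Functor.LaxMonoidal.μ R.H X.V Y.V := by rw [h, Category.comp_id]
  exact (Functor.LaxMonoidal.comp_μ (Action.forget C G) R.H X Y).trans h1

/-- The realisation of the objects with an action of the group `G`. -/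
noncomputable def actReal (R : SuperRealisation C K) : SuperRealisation (Action C G) K where
  H := Action.forget C G ⋙ R.H
  finite X := R.finite X.V
  par X := R.par X.V
  par_sq X := R.par_sq X.V
  par_natural f := R.par_natural f.hom
  par_unit := R.par_unit
  par_tensor X Y := by
    rw [mu_forget]
    exact R.par_tensor X.V Y.V
  symm X Y := by
    rw [mu_forget, mu_forget]
    exact R.symm X.V Y.V

end

section

variable {C : Type u} [Category.{v} C] [Preadditive C] [MonoidalCategory C]
  [MonoidalPreadditive C] [SymmetricCategory C] [RightRigidCategory C]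
  {Λ : Type t} [Field Λ] [CharZero Λ] [Linear Λ C] [MonoidalLinear Λ C]
  {K : Type w} [Field K] [Algebra Λ K] {R : SuperRealisation C K} {G : Type} [Group G]

lemma actReal_isReal (hR : IsReal Λ R) : IsReal Λ (actReal G R) where
  unit c := by
    obtain ⟨q, hq⟩ := hR.unit c.hom
    exact ⟨q, Action.hom_ext _ _ hq⟩
  lin a f := hR.lin a f.hom

lemma actReal_cplus {X : Action C G} (f : X.V ⟶ X.V) (hf : ∀ g, X.ρ g ≫ f = f ≫ X.ρ g)
    (h : (2 : K) • R.H.map f = 𝟙 _ + R.par X.V) : (actReal G R).CPlus X :=
  ⟨⟨f, hf⟩, h⟩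

end

end Pool.Agent.Helper13GL
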