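import Pool.Agent.Helper13GL.Act

/-!
# Chow-Künneth decompositions and their products
-/

set_option autoImplicit false
set_option linter.unusedSectionVars false

open CategoryTheory Limits MonoidalCategory Module
open Pool.Agent.Y112.SR Pool.Agent.Y112.KD Pool.Agent.N64.AF
open Finset (range)
open Finset.HasAntidiagonal (antidiagonal)

namespace Pool.Agent.Helper13GL

universe v u w t x

lemma sum_antidiagonal_range {A : Type*} [AddCommMonoid A] (f : ℕ → ℕ → A) (M N : ℕ)
    (h1 : ∀ i j, M < i → f i j = 0) (h2 : ∀ i j, N < j → f i j = 0) :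
    ∑ i ∈ range (M + 1), ∑ j ∈ range (N + 1), f i j =
      ∑ k ∈ range (M + N + 1), ∑ p ∈ antidiagonal k, f p.1 p.2 := by
  rw [← Finset.sum_product', Finset.sum_sigma']
  refine Finset.sum_of_injOn (fun x => (⟨x.1 + x.2, x⟩ : Σ _ : ℕ, ℕ × ℕ)) ?_ ?_ ?_ ?_
  · rintro ⟨a, b⟩ _ ⟨c, d⟩ _ h
    simpa using (Sigma.mk.inj_iff.1 h).2
  · rintro ⟨a, b⟩ h
    simp only [Finset.coe_product, Finset.coe_range, Set.mem_prod, Set.mem_Iio] at h
    refine Finset.mem_coe.2 (Finset.mem_sigma.2 ⟨Finset.mem_range.2 ?_,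
      Finset.HasAntidiagonal.mem_antidiagonal.2 rfl⟩)
    change a + b < M + N + 1
    omega
  · rintro ⟨k, a, b⟩ h h'
    simp only [Finset.mem_sigma, Finset.mem_range, Finset.HasAntidiagonal.mem_antidiagonal] at h
    by_contra hne
    apply h'
    refine ⟨(a, b), ?_, ?_⟩
    · simp only [Finset.coe_product, Finset.coe_range, Set.mem_prod, Set.mem_Iio]
      constructor
      · by_contra h3
        exact hne (h1 a b (by omega))
      · by_contra h3
        exact hne (h2 a b (by omega))
    · simp only [h.2]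
  · intro x _
    rfl

section

variable {C : Type u} [Category.{v} C] [Preadditive C] [MonoidalCategory C]
  [MonoidalPreadditive C]

/-- The product decompositions: the projector of degree `k` on the `e`-th power of `T`. -/
def piProd {T : C} (π : ℕ → (T ⟶ T)) : ∀ e : ℕ, ℕ → (tp T e ⟶ tp T e)
  | 0, k => if k = 0 then 𝟙 _ else 0
  | e + 1, k => ∑ p ∈ antidiagonal k, (piProd π e p.1 ⊗ₘ π p.2)

/-- The `π i`, `0 ≤ i ≤ D`, are orthogonal idempotents with the sum `1` (and `π i = 0` for `i > D`). -/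
structure IsDecomposition {T : C} (π : ℕ → (T ⟶ T)) (D : ℕ) : Prop where
  idem : ∀ i, π i ≫ π i = π i
  orth : ∀ i j, i ≠ j → π i ≫ π j = 0
  sum_eq : ∑ i ∈ range (D + 1), π i = 𝟙 T
  zero : ∀ i, D < i → π i = 0

variable {T : C} {π : ℕ → (T ⟶ T)} {D : ℕ}

lemma IsDecomposition.prod (h : IsDecomposition π D) (e : ℕ) :
    IsDecomposition (piProd π e) (D * e) := by
  induction e with
  | zero =>
    refine ⟨fun i => ?_, fun i j hij => ?_, ?_, fun i hi => ?_⟩
    · simp only [piProd]
      split_ifs <;> simp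
    · simp only [piProd]
      by_cases hi : i = 0
      · rw [if_neg (by omega : ¬ j = 0), comp_zero]
      · rw [if_neg hi, zero_comp]
    · simp [piProd]
    · simp only [piProd]
      rw [if_neg (by omega)]
  | succ e ih =>
    have key : ∀ k l, piProd π (e + 1) k ≫ piProd π (e + 1) l =
        if k = l then piProd π (e + 1) k else 0 := by
      intro k l
      change (∑ p ∈ antidiagonal k, (piProd π e p.1 ⊗ₘ π p.2)) ≫
        (∑ q ∈ antidiagonal l, (piProd π e q.1 ⊗ₘ π q.2)) = _
      have h1 : ∀ p q : ℕ × ℕ, (piProd π e p.1 ⊗ₘ π p.2) ≫ (piProd π e q.1 ⊗ₘ π q.2) =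
          if p = q then (piProd π e p.1 ⊗ₘ π p.2) else 0 := by
        intro p q
        rw [MonoidalCategory.tensorHom_comp_tensorHom]
        by_cases hpq : p = q
        · rw [if_pos hpq, ← hpq, ih.idem, h.idem]
        · rw [if_neg hpq]
          by_cases h2 : p.1 = q.1
          · have h3 : p.2 ≠ q.2 := fun h3 => hpq (Prod.ext h2 h3)
            rw [h.orth _ _ h3, MonoidalPreadditive.tensor_zero]
          · rw [ih.orth _ _ h2, MonoidalPreadditive.zero_tensor]
      rw [Preadditive.sum_comp]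
      simp only [Preadditive.comp_sum, h1]
      by_cases hkl : k = l
      · subst hkl
        rw [if_pos rfl]
        refine Finset.sum_congr rfl fun p hp => ?_
        rw [Finset.sum_ite_eq, if_pos hp]
      · rw [if_neg hkl]
        refine Finset.sum_eq_zero fun p hp => Finset.sum_eq_zero fun q hq => ?_
        rw [if_neg]
        rintro rfl
        rw [Finset.HasAntidiagonal.mem_antidiagonal] at hp hq
        omega
    refine ⟨fun i => by rw [key, if_pos rfl], fun i j hij => by rw [key, if_neg hij], ?_, ?_⟩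
    · have h1 := sum_antidiagonal_range (fun i j => (piProd π e i ⊗ₘ π j)) (D * e) D
        (fun i j hi => by rw [ih.zero i hi, MonoidalPreadditive.zero_tensor])
        (fun i j hj => by rw [h.zero j hj, MonoidalPreadditive.tensor_zero])
      have h2 : D * (e + 1) + 1 = D * e + D + 1 := by ring
      rw [h2]
      change ∑ k ∈ range (D * e + D + 1), ∑ p ∈ antidiagonal k, (piProd π e p.1 ⊗ₘ π p.2) = _
      rw [← h1]
      simp only [← tensor_sum]
      rw [← sum_tensor, ih.sum_eq, h.sum_eq, MonoidalCategory.id_tensorHom_id]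
    · intro i hi
      change ∑ p ∈ antidiagonal i, (piProd π e p.1 ⊗ₘ π p.2) = 0
      refine Finset.sum_eq_zero fun p hp => ?_
      rw [Finset.HasAntidiagonal.mem_antidiagonal] at hp
      by_cases h1 : D < p.2
      · rw [h.zero _ h1, MonoidalPreadditive.tensor_zero]
      · rw [ih.zero p.1 (by rw [Nat.mul_succ] at hi; omega), MonoidalPreadditive.zero_tensor]

end

section

variable {C : Type u} [Category.{v} C] [Preadditive C] [Linear ℚ C]

/-- The endomorphism `Σ t^i π_i`. -/
def rho {Z : C} (π : ℕ → (Z ⟶ Z)) (D : ℕ) (t : ℚ) : Z ⟶ Z :=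
  ∑ i ∈ range (D + 1), t ^ i • π i

variable {Z : C} {π : ℕ → (Z ⟶ Z)} {D : ℕ}

lemma IsDecomposition.comp_rho (h : IsDecomposition π D) (k : ℕ) (t : ℚ) :
    π k ≫ rho π D t = t ^ k • π k := by
  unfold rho
  rw [Preadditive.comp_sum]
  by_cases hk : k ≤ D
  · rw [Finset.sum_eq_single k]
    · rw [Linear.comp_smul, h.idem]
    · intro i _ hi
      rw [Linear.comp_smul, h.orth _ _ (Ne.symm hi), smul_zero]
    · intro hk'
      exact absurd (Finset.mem_range.2 (by omega)) hk'
  · rw [h.zero k (by omega), smul_zero]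
    exact Finset.sum_eq_zero fun i _ => zero_comp

lemma IsDecomposition.rho_comp (h : IsDecomposition π D) (k : ℕ) (t : ℚ) :
    rho π D t ≫ π k = t ^ k • π k := by
  unfold rho
  rw [Preadditive.sum_comp]
  by_cases hk : k ≤ D
  · rw [Finset.sum_eq_single k]
    · rw [Linear.smul_comp, h.idem]
    · intro i _ hi
      rw [Linear.smul_comp, h.orth _ _ hi, smul_zero]
    · intro hk'
      exact absurd (Finset.mem_range.2 (by omega)) hk'
  · rw [h.zero k (by omega), smul_zero]
    exact Finset.sum_eq_zero fun i _ => comp_zero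

lemma IsDecomposition.rho_one (h : IsDecomposition π D) : rho π D 1 = 𝟙 Z := by
  unfold rho
  simp only [one_pow, one_smul]
  exact h.sum_eq

lemma IsDecomposition.rho_mul (h : IsDecomposition π D) (s t : ℚ) :
    rho π D s ≫ rho π D t = rho π D (s * t) := by
  conv_lhs => rw [rho]
  rw [Preadditive.sum_comp]
  refine Finset.sum_congr rfl fun i _ => ?_
  rw [Linear.smul_comp, h.comp_rho, smul_smul, mul_pow]

end

section

variable {C : Type u} [Category.{v} C] [Preadditive C] [MonoidalCategory C]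
  [MonoidalPreadditive C] [Linear ℚ C] [MonoidalLinear ℚ C] {T : C} {π : ℕ → (T ⟶ T)} {D : ℕ}

lemma smul_tensorHom {X Y X' Y' : C} (c : ℚ) (f : X ⟶ Y) (g : X' ⟶ Y') :
    ((c • f) ⊗ₘ g) = c • (f ⊗ₘ g) := by
  rw [MonoidalCategory.tensorHom_def, MonoidalCategory.tensorHom_def,
    MonoidalLinear.smul_whiskerRight, Linear.smul_comp]

lemma tensorHom_smul {X Y X' Y' : C} (c : ℚ) (f : X ⟶ Y) (g : X' ⟶ Y') :
    (f ⊗ₘ (c • g)) = c • (f ⊗ₘ g) := by
  rw [MonoidalCategory.tensorHom_def, MonoidalCategory.tensorHom_def,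
    MonoidalLinear.whiskerLeft_smul, Linear.comp_smul]

lemma IsDecomposition.rho_succ (h : IsDecomposition π D) (e : ℕ) (t : ℚ) :
    rho (piProd π (e + 1)) (D * (e + 1)) t = (rho (piProd π e) (D * e) t ⊗ₘ rho π D t) := by
  have ih := h.prod e
  have h1 := sum_antidiagonal_range (fun i j => (t ^ i • piProd π e i ⊗ₘ t ^ j • π j)) (D * e) D
    (fun i j hi => by rw [ih.zero i hi, smul_zero, MonoidalPreadditive.zero_tensor])
    (fun i j hj => by rw [h.zero j hj, smul_zero, MonoidalPreadditive.tensor_zero])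
  have h2 : D * (e + 1) + 1 = D * e + D + 1 := by ring
  unfold rho
  rw [h2, sum_tensor]
  simp only [tensor_sum]
  rw [h1]
  refine Finset.sum_congr rfl fun k _ => ?_
  change t ^ k • ∑ p ∈ antidiagonal k, (piProd π e p.1 ⊗ₘ π p.2) = _
  rw [Finset.smul_sum]
  refine Finset.sum_congr rfl fun p hp => ?_
  rw [Finset.HasAntidiagonal.mem_antidiagonal] at hp
  rw [smul_tensorHom, tensorHom_smul, smul_smul, ← pow_add, hp]

end

end Pool.Agent.Helper13GL
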