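import Pool.Agent.Helper13GL.CK

/-!
# The grading given by a Chow-Künneth decomposition as an action
-/

set_option autoImplicit false
set_option linter.unusedSectionVars false

open CategoryTheory Limits MonoidalCategory Module
open Pool.Agent.Y112.SR Pool.Agent.Y112.KD Pool.Agent.N64.AF
open Finset (range)

namespace Pool.Agent.Helper13GL

universe v u w t x

section hom

variable {C : Type u} [Category.{v} C] [Preadditive C] [Linear ℚ C]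

/-- The action `t ↦ Σ t^i π_i`. -/
def ckHom {Z : C} {π : ℕ → (Z ⟶ Z)} {N : ℕ} (h : IsDecomposition π N) : ℚˣ →* End Z where
  toFun t := rho π N (t : ℚ)
  map_one' := by
    rw [Units.val_one, h.rho_one]
    rfl
  map_mul' s t := by
    rw [End.mul_def, h.rho_mul, Units.val_mul, mul_comm]

/-- The action `t ↦ t^{-m}`. -/
def scHom (Z : C) (m : ℕ) : ℚˣ →* End Z where
  toFun t := ((t⁻¹ : ℚˣ) : ℚ) ^ m • 𝟙 Z
  map_one' := by
    rw [inv_one, Units.val_one, one_pow, one_smul]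
    rfl
  map_mul' s t := by
    rw [End.mul_def, Linear.smul_comp, Linear.comp_smul, Category.comp_id, smul_smul, mul_inv,
      Units.val_mul, mul_pow, mul_comm]

lemma ckHom_apply {Z : C} {π : ℕ → (Z ⟶ Z)} {N : ℕ} (h : IsDecomposition π N) (t : ℚˣ) :
    ckHom h t = rho π N (t : ℚ) := rfl

lemma scHom_apply (Z : C) (m : ℕ) (t : ℚˣ) :
    scHom Z m t = ((t⁻¹ : ℚˣ) : ℚ) ^ m • 𝟙 Z := rfl

end hom

section act

variable {C : Type u} [Category.{v} C] [Preadditive C] [MonoidalCategory C]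
  [MonoidalPreadditive C] [Linear ℚ C] [MonoidalLinear ℚ C]

/-- The object `T` with the action given by the decomposition. -/
def objT {T : C} {π : ℕ → (T ⟶ T)} {N : ℕ} (h : IsDecomposition π N) : Action C ℚˣ :=
  ⟨T, ckHom h⟩

/-- The object `Z` with the action `t ↦ t^{-m}`. -/
def objS (Z : C) (m : ℕ) : Action C ℚˣ := ⟨Z, scHom Z m⟩

lemma isoT {T : C} {π : ℕ → (T ⟶ T)} {N : ℕ} (h : IsDecomposition π N) (e : ℕ) :
    Nonempty (tp (objT h) e ≅ objT (h.prod e)) := by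
  induction e with
  | zero =>
    refine ⟨Action.mkIso (Iso.refl _) fun t => ?_⟩
    change 𝟙 (𝟙_ C) ≫ 𝟙 (𝟙_ C) = 𝟙 (𝟙_ C) ≫ rho (piProd π 0) (N * 0) (t : ℚ)
    simp [rho, piProd]
  | succ e ih =>
    obtain ⟨i⟩ := ih
    refine ⟨(i ⊗ᵢ Iso.refl (objT h)) ≪≫ Action.mkIso (Iso.refl _) fun t => ?_⟩
    change (rho (piProd π e) (N * e) (t : ℚ) ⊗ₘ rho π N (t : ℚ)) ≫ 𝟙 _ =
      𝟙 _ ≫ rho (piProd π (e + 1)) (N * (e + 1)) (t : ℚ)
    rw [Category.comp_id, Category.id_comp, h.rho_succ]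

lemma isoS (D : C) (m a : ℕ) : Nonempty (tp (objS D m) a ≅ objS (tp D a) (m * a)) := by
  induction a with
  | zero =>
    refine ⟨Action.mkIso (Iso.refl _) fun t => ?_⟩
    change 𝟙 (𝟙_ C) ≫ 𝟙 (𝟙_ C) = 𝟙 (𝟙_ C) ≫ (((t⁻¹ : ℚˣ) : ℚ) ^ (m * 0) • 𝟙 (𝟙_ C))
    simp
  | succ a ih =>
    obtain ⟨i⟩ := ih
    refine ⟨(i ⊗ᵢ Iso.refl (objS D m)) ≪≫ Action.mkIso (Iso.refl _) fun t => ?_⟩
    change ((((t⁻¹ : ℚˣ) : ℚ) ^ (m * a) • 𝟙 (tp D a)) ⊗ₘ (((t⁻¹ : ℚˣ) : ℚ) ^ m • 𝟙 D)) ≫ 𝟙 _ =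
      𝟙 _ ≫ (((t⁻¹ : ℚˣ) : ℚ) ^ (m * (a + 1)) • 𝟙 (tp D a ⊗ D))
    rw [Category.comp_id, Category.id_comp, smul_tensorHom, tensorHom_smul, smul_smul,
      MonoidalCategory.id_tensorHom_id, ← pow_add]
    rfl

/-- The motive `h(X^e)(a)` with its grading. -/
noncomputable def motG {T : C} (D : C) {π : ℕ → (T ⟶ T)} {N : ℕ} (h : IsDecomposition π N)
    (m e a : ℕ) : Action C ℚˣ := objT (h.prod e) ⊗ objS (tp D a) (m * a)

lemma isoMot {T : C} (D : C) {π : ℕ → (T ⟶ T)} {N : ℕ} (h : IsDecomposition π N) (m e a : ℕ) :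
    Nonempty (mot (objT h) (objS D m) e a ≅ motG D h m e a) := by
  obtain ⟨i⟩ := isoT h e
  obtain ⟨j⟩ := isoS D m a
  exact ⟨i ⊗ᵢ j⟩

lemma motG_rho {T : C} (D : C) {π : ℕ → (T ⟶ T)} {N : ℕ} (h : IsDecomposition π N)
    (m e a : ℕ) (t : ℚˣ) : (motG D h m e a).ρ t =
      (((t⁻¹ : ℚˣ) : ℚ) ^ (m * a)) • (rho (piProd π e) (N * e) (t : ℚ) ▷ tp D a) := by
  change (rho (piProd π e) (N * e) (t : ℚ) ⊗ₘ (((t⁻¹ : ℚˣ) : ℚ) ^ (m * a) • 𝟙 (tp D a))) = _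
  rw [tensorHom_smul, MonoidalCategory.tensorHom_id]

end act

end Pool.Agent.Helper13GL
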