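import Pool.Agent.Helper13GL.CKAct

/-!
# Chow-Künneth decompositions: duality
-/

set_option autoImplicit false
set_option linter.unusedSectionVars false

open CategoryTheory Limits MonoidalCategory Module
open Pool.Agent.Y112.SR Pool.Agent.Y112.KD Pool.Agent.N64.AF
open Finset (range)

namespace Pool.Agent.Helper13GL

universe v u w t x

section

variable {C : Type u} [Category.{v} C] [Preadditive C] [MonoidalCategory C]
  [MonoidalPreadditive C] [SymmetricCategory C] [RightRigidCategory C] [Linear ℚ C]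
  [MonoidalLinear ℚ C] {K : Type w} [Field K]

/-- The family `π` of endomorphisms of the motive `T = h(X)` of a smooth projective variety of
dimension `d` is a self-dual Chow-Künneth decomposition; `D` is the Tate motive `ℚ(1)` and `R` the
realisation.

* `decomposition`: the `π i`, `0 ≤ i ≤ 2 d`, are orthogonal idempotents with the sum `1`;
* `parity`: the realisation of `π i` is even or odd according to the parity of `i`;
* `degree`: the classes of the cycles of codimension `a` on `X^e` are in the cohomology of degree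
  `2 a`, on which the projectors of the product decomposition of degree `k ≠ 2 a` act as zero;
* `duality`: Poincaré duality; the dual of `h(X)` is `h(X)(d)` and the dual of `π i` is `π (2 d - i)`;
* `hyperplane`: the Tate motives `ℚ(a)`, `a ≤ d`, are direct summands of the parts of degree `2 a` of the
  dual of `h(X)` (they are given by the powers of the class of a hyperplane section). -/
structure IsChowKunneth (R : SuperRealisation C K) (T D : C) (d : ℕ) (π : ℕ → (T ⟶ T)) : Prop where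
  decomposition : IsDecomposition π (2 * d)
  parity : ∀ i, R.H.map (π i) ≫ R.par T = (-1 : K) ^ i • R.H.map (π i)
  degree : ∀ (e a k : ℕ), k ≠ 2 * a → ∀ α : 𝟙_ C ⟶ mot T D e a,
    R.H.map (α ≫ (piProd π e k ▷ tp D a)) = 0
  duality : ∃ φ : Tᘁ ≅ T ⊗ tp D d, ∀ i, i ≤ 2 * d →
    (π i)ᘁ ≫ φ.hom = φ.hom ≫ (π (2 * d - i) ▷ tp D d)
  hyperplane : ∀ a ≤ d, ∃ (i : tp D a ⟶ Tᘁ) (r : Tᘁ ⟶ tp D a), i ≫ (π (2 * a))ᘁ ≫ r = 𝟙 _

lemma smul_mate {X Y : C} (c : ℚ) (f : X ⟶ Y) : (c • f)ᘁ = c • fᘁ := by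
  simp [rightAdjointMate]

lemma add_mate {X Y : C} (f g : X ⟶ Y) : (f + g)ᘁ = fᘁ + gᘁ := by
  simp [rightAdjointMate]

lemma zero_mate {X Y : C} : (0 : X ⟶ Y)ᘁ = 0 := by
  simp [rightAdjointMate]

lemma sum_mate {X Y : C} {ι : Type} (s : Finset ι) (f : ι → (X ⟶ Y)) :
    (∑ i ∈ s, f i)ᘁ = ∑ i ∈ s, (f i)ᘁ := by
  classical
  induction s using Finset.induction_on with
  | empty => simp [zero_mate]
  | insert a s ha ih => rw [Finset.sum_insert ha, Finset.sum_insert ha, add_mate, ih]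

variable {R : SuperRealisation C K} {T D : C} {d : ℕ} {π : ℕ → (T ⟶ T)}

lemma IsChowKunneth.duality_act (h : IsChowKunneth R T D d π) :
    Nonempty ((objT h.decomposition)ᘁ ≅ objT h.decomposition ⊗ tp (objS D 2) d) := by
  obtain ⟨φ, hφ⟩ := h.duality
  obtain ⟨j⟩ := isoS D 2 d
  refine ⟨?_ ≪≫ whiskerLeftIso (objT h.decomposition) j.symm⟩
  refine Action.mkIso φ fun t => ?_
  rw [Action.rightDual_ρ]
  change (rho π (2 * d) ((t⁻¹ : ℚˣ) : ℚ))ᘁ ≫ φ.hom = φ.hom ≫
    (rho π (2 * d) (t : ℚ) ⊗ₘ (((t⁻¹ : ℚˣ) : ℚ) ^ (2 * d) • 𝟙 (tp D d)))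
  rw [tensorHom_smul, MonoidalCategory.tensorHom_id]
  have h0 : (t : ℚ) ≠ 0 := t.ne_zero
  have hs : ∀ s : ℚ, rho π (2 * d) s ▷ tp D d =
      ∑ i ∈ range (2 * d + 1), s ^ i • (π i ▷ tp D d) := by
    intro s
    unfold rho
    rw [sum_whiskerRight]
    refine Finset.sum_congr rfl fun i _ => ?_
    rw [MonoidalLinear.smul_whiskerRight]
  rw [hs]
  conv_lhs => rw [rho, sum_mate, Preadditive.sum_comp]
  rw [Linear.comp_smul, Preadditive.comp_sum, ← Finset.sum_range_reflect, Finset.smul_sum]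
  refine Finset.sum_congr rfl fun i hi => ?_
  rw [Finset.mem_range] at hi
  have e1 : 2 * d + 1 - 1 - i = 2 * d - i := by omega
  rw [e1, smul_mate, Linear.smul_comp, hφ _ (by omega), Linear.comp_smul, smul_smul]
  have e2 : 2 * d - (2 * d - i) = i := by omega
  rw [e2]
  congr 1
  rw [Units.val_inv_eq_inv_val, inv_pow, inv_pow]
  have e3 : (t : ℚ) ^ (2 * d) = (t : ℚ) ^ (2 * d - i) * (t : ℚ) ^ i := by
    rw [← pow_add]
    congr 1
    omega
  rw [e3]
  field_simp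

lemma IsChowKunneth.hyperplane_act (h : IsChowKunneth R T D d π) (a : ℕ) (ha : a ≤ d) :
    IsSummand (objT h.decomposition)ᘁ (tp (objS D 2) a) := by
  obtain ⟨i, r, hir⟩ := h.hyperplane a ha
  obtain ⟨j⟩ := isoS D 2 a
  have hd : ∀ t : ℚˣ, (objT h.decomposition)ᘁ.ρ t = (rho π (2 * d) ((t⁻¹ : ℚˣ) : ℚ))ᘁ :=
    fun t => Action.rightDual_ρ _ _
  have hidem : (π (2 * a))ᘁ ≫ (π (2 * a))ᘁ = (π (2 * a))ᘁ := by
    rw [← comp_rightAdjointMate, h.decomposition.idem]
  let i' : objS (tp D a) (2 * a) ⟶ (objT h.decomposition)ᘁ :=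
    ⟨i ≫ (π (2 * a))ᘁ, fun t => by
      rw [hd]
      change ((((t⁻¹ : ℚˣ) : ℚ) ^ (2 * a)) • 𝟙 (tp D a)) ≫ i ≫ (π (2 * a))ᘁ =
        (i ≫ (π (2 * a))ᘁ) ≫ (rho π (2 * d) ((t⁻¹ : ℚˣ) : ℚ))ᘁ
      rw [Category.assoc, ← comp_rightAdjointMate, h.decomposition.rho_comp, smul_mate,
        Linear.smul_comp, Category.id_comp, Linear.comp_smul]⟩
  let r' : (objT h.decomposition)ᘁ ⟶ objS (tp D a) (2 * a) :=
    ⟨(π (2 * a))ᘁ ≫ r, fun t => by
      rw [hd]
      change (rho π (2 * d) ((t⁻¹ : ℚˣ) : ℚ))ᘁ ≫ (π (2 * a))ᘁ ≫ r =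
        ((π (2 * a))ᘁ ≫ r) ≫ ((((t⁻¹ : ℚˣ) : ℚ) ^ (2 * a)) • 𝟙 (tp D a))
      rw [← Category.assoc, ← comp_rightAdjointMate, h.decomposition.comp_rho, smul_mate,
        Linear.smul_comp, Linear.comp_smul, Category.comp_id]⟩
  have h1 : i' ≫ r' = 𝟙 _ := by
    ext
    change (i ≫ (π (2 * a))ᘁ) ≫ (π (2 * a))ᘁ ≫ r = 𝟙 (tp D a)
    rw [Category.assoc, reassoc_of% hidem, hir]
  exact (isSummand_of_retract i' r' h1).trans (isSummand_of_iso j.symm)

lemma IsChowKunneth.isMotive (h : IsChowKunneth R T D d π) :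
    IsMotive (objT h.decomposition) (objS D 2) d :=
  ⟨h.duality_act, h.hyperplane_act⟩

end

end Pool.Agent.Helper13GL
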