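import Pool.Agent.Helper13GL.Main

/-!
# Homologically trivial classes without odd cohomology
-/

set_option autoImplicit false
set_option linter.unusedSectionVars false

open CategoryTheory Limits MonoidalCategory Module Filter Topology
open Pool.Agent.Y112.SR Pool.Agent.Y112.KD Pool.Agent.N64.AF Pool.Agent.Helper13GL
open scoped ENNReal

namespace Pool.Agent.Helper13GL

universe v u w

variable {C : Type u} [Category.{v} C] [Preadditive C] [MonoidalCategory C]
  [MonoidalPreadditive C] [SymmetricCategory C] [RightRigidCategory C]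
  [Linear ℚ C] [MonoidalLinear ℚ C] [IsIdempotentComplete C]
  {K : Type w} [Field K] [IsAlgClosed K] [Algebra ℚ K] {R : SuperRealisation C K}

/-- All homologically trivial classes on `Z` are zero. -/
def NoHomTrivial (R : SuperRealisation C K) (Z : C) : Prop :=
  ∀ α : 𝟙_ C ⟶ Z, R.H.map α = 0 → α = 0

/-- The dimension, a natural number or infinity, of the space of the homologically trivial classes
on `Z`. -/
noncomputable def homDim (hR : IsReal ℚ R) (Z : C) : ℕ∞ := dimE ℚ (homSub hR (𝟙_ C) Z)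

/-- The trivial family of maps. -/
noncomputable def zeroAJ (hR : IsReal ℚ R) : AbelJacobi hR where
  J _ := PUnit
  aj _ := 0
  map _ := 0
  natural _ _ _ _ := rfl
  map_zero _ _ := rfl
  even _ _ := inferInstance

lemma zeroAJ_dim (hR : IsReal ℚ R) (Z : C) : (zeroAJ hR).kernelDim Z = homDim hR Z := by
  have h1 : LinearMap.ker ((zeroAJ hR).aj Z) = ⊤ := LinearMap.ker_zero
  unfold AbelJacobi.kernelDim homDim
  rw [h1]
  exact dimE_congr Submodule.topEquiv

lemma zeroAJ_inj (hR : IsReal ℚ R) (Z : C) : (zeroAJ hR).InjectiveOn Z ↔ NoHomTrivial R Z := by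
  refine ⟨fun h α hα => ?_, fun h α β _ => ?_⟩
  · exact congrArg Subtype.val (h (a₁ := ⟨α, hα⟩) (a₂ := 0) rfl)
  · exact Subtype.ext ((h α.1 α.2).trans (h β.1 β.2).symm)

lemma homDim_congr (hR : IsReal ℚ R) {Y Z : C} (i : Y ≅ Z) : homDim hR Y = homDim hR Z := by
  rw [← zeroAJ_dim, ← zeroAJ_dim, ← (zeroAJ hR).dim_N, ← (zeroAJ hR).dim_N]
  exact dimE_congr (isoEquiv (sub (homF ℚ (𝟙_ C)) (zeroAJ hR).N (zeroAJ hR).stab) i)

omit [Linear ℚ C] [MonoidalLinear ℚ C] [IsIdempotentComplete C] [IsAlgClosed K] [Algebra ℚ K]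
  [RightRigidCategory C] in
lemma NoHomTrivial.congr {Y Z : C} (h : NoHomTrivial R Y) (i : Y ≅ Z) : NoHomTrivial R Z := by
  intro α hα
  have h1 := h (α ≫ i.inv) (by rw [Functor.map_comp, hα, zero_comp])
  have h2 : α = (α ≫ i.inv) ≫ i.hom := by rw [Category.assoc, i.inv_hom_id, Category.comp_id]
  rw [h2, h1, zero_comp]

lemma NoHomTrivial.homDim {hR : IsReal ℚ R} {Z : C} (h : NoHomTrivial R Z) : homDim hR Z = 0 := by
  have h1 : Subsingleton (homSub hR (𝟙_ C) Z) :=
    ⟨fun α β => Subtype.ext ((h α.1 α.2).trans (h β.1 β.2).symm)⟩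
  unfold Helper13GL.homDim
  rw [dimE_eq, finrank_zero_of_subsingleton]
  rfl

/-- One inequality. -/
theorem even_criterion (hR : IsReal ℚ R) {T D : C} {d : ℕ} (hM : IsMotive T D d)
    (hT : R.par T = 𝟙 _) (e n : ℕ) (hn : 128 * (e + 1) ^ 2 * bt R T ^ (4 * e + 12) ≤ n)
    (hlt : 2 * (n + 1) ^ (bt R T ^ 2) * homDim hR (mot T D (2 * n) (d * n)) < (bt R T ^ (2 * n) : ℕ))
    (a : ℕ) (ha : a ≤ d * e) : NoHomTrivial R (mot T D e a) := by
  obtain ⟨A, h1, h2, h3, h4⟩ := aj_law (zeroAJ hR) hM (cplus_of_par hT)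
  simp only [zeroAJ_dim, zeroAJ_inj] at h1 h2 h4
  refine h4 e n hn ?_ a ha
  obtain ⟨i⟩ := mot_iso hM.duality n
  have h5 := growth (Λ := ℚ) hR (cplus_of_par hT) n
  rw [← numRank_tensor_dual hR, numRank_congr hR i, ← pow_mul] at h5
  obtain ⟨m, hm⟩ : ∃ m : ℕ, homDim hR (mot T D (2 * n) (d * n)) = m := by
    refine ENat.ne_top_iff_exists.1 ?_ |>.imp fun m hm => hm.symm
    intro htop
    rw [htop, ENat.mul_top] at hlt
    · exact absurd hlt (not_lt.2 le_top)
    · have : 0 < 2 * (n + 1) ^ (bt R T ^ 2) := by positivity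
      exact_mod_cast this.ne'
  rw [hm] at hlt ⊢
  have hlt' : 2 * (n + 1) ^ (bt R T ^ 2) * m < bt R T ^ (2 * n) := by exact_mod_cast hlt
  have h6 : (n + 1) ^ (bt R T ^ 2) * (2 * m) <
      (n + 1) ^ (bt R T ^ 2) * numRank ℚ (mot T D (2 * n) (d * n)) := by
    refine lt_of_lt_of_le ?_ h5
    calc (n + 1) ^ (bt R T ^ 2) * (2 * m) = 2 * (n + 1) ^ (bt R T ^ 2) * m := by ring
      _ < _ := hlt'
  have h7 := lt_of_mul_lt_mul_left h6 (Nat.zero_le _)
  exact_mod_cast h7

end Pool.Agent.Helper13GL
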