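import Pool.Agent.N64.AF.M6
import Pool.Agent.N64.AF.L1

/-!
# The objects generated by an object of a rigid tensor category
-/

set_option autoImplicit false

open CategoryTheory Limits MonoidalCategory Module Filter Topology
open Pool.Agent.Y112.SR Pool.Agent.Y112.KD Pool.Agent.N64.AF
open scoped ENNReal

namespace Pool.Agent.Helper13GL

universe v u w t x

section Summand

variable {C : Type u} [Category.{v} C] [Preadditive C]

/-- The object `Z` is a direct summand of a direct sum of copies of `U`. -/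
def IsSummand (U Z : C) : Prop :=
  ∃ (k : ℕ) (i : Fin k → (Z ⟶ U)) (r : Fin k → (U ⟶ Z)), ∑ j, i j ≫ r j = 𝟙 Z

lemma isSummand_of_retract {U Z : C} (i : Z ⟶ U) (r : U ⟶ Z) (h : i ≫ r = 𝟙 Z) :
    IsSummand U Z :=
  ⟨1, fun _ => i, fun _ => r, by simpa using h⟩

lemma isSummand_refl (U : C) : IsSummand U U :=
  isSummand_of_retract (𝟙 U) (𝟙 U) (Category.comp_id _)

lemma isSummand_of_iso {U Z : C} (e : U ≅ Z) : IsSummand U Z :=
  isSummand_of_retract e.inv e.hom e.inv_hom_id

lemma IsSummand.trans {U V Z : C} (h : IsSummand U V) (h' : IsSummand V Z) : IsSummand U Z := by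
  obtain ⟨k, i, r, hir⟩ := h
  obtain ⟨l, a, b, hab⟩ := h'
  refine ⟨k * l, fun j => a (finProdFinEquiv.symm j).2 ≫ i (finProdFinEquiv.symm j).1,
    fun j => r (finProdFinEquiv.symm j).1 ≫ b (finProdFinEquiv.symm j).2, ?_⟩
  rw [← finProdFinEquiv.sum_comp, Fintype.sum_prod_type_right]
  simp only [Equiv.symm_apply_apply, Category.assoc]
  rw [← hab]
  refine Finset.sum_congr rfl fun y _ => ?_
  calc ∑ x, a y ≫ i x ≫ r x ≫ b y = a y ≫ (∑ x, i x ≫ r x) ≫ b y := by
        rw [Preadditive.sum_comp, Preadditive.comp_sum]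
        refine Finset.sum_congr rfl fun x _ => ?_
        rw [Category.assoc]
    _ = a y ≫ b y := by rw [hir, Category.id_comp]

lemma IsSummand.tensor [MonoidalCategory C] [MonoidalPreadditive C] {U V Z W : C}
    (h : IsSummand U V) (h' : IsSummand Z W) : IsSummand (U ⊗ Z) (V ⊗ W) := by
  obtain ⟨k, i, r, hir⟩ := h
  obtain ⟨l, a, b, hab⟩ := h'
  refine ⟨k * l, fun j => i (finProdFinEquiv.symm j).1 ⊗ₘ a (finProdFinEquiv.symm j).2,
    fun j => r (finProdFinEquiv.symm j).1 ⊗ₘ b (finProdFinEquiv.symm j).2, ?_⟩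
  rw [← finProdFinEquiv.sum_comp, Fintype.sum_prod_type]
  simp only [Equiv.symm_apply_apply, MonoidalCategory.tensorHom_comp_tensorHom]
  calc ∑ x, ∑ y, (i x ≫ r x ⊗ₘ a y ≫ b y) = ((∑ x, i x ≫ r x) ⊗ₘ (∑ y, a y ≫ b y)) := by
        rw [sum_tensor]
        refine Finset.sum_congr rfl fun x _ => ?_
        rw [tensor_sum]
    _ = 𝟙 _ := by rw [hir, hab, MonoidalCategory.id_tensorHom_id]

/-- Additive functors which vanish at `U` vanish at the summands of the sums of copies of `U`. -/
lemma IsSummand.subsingleton {Λ : Type t} [Field Λ] {U Z : C} (h : IsSummand U Z)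
    (F : C ⥤ ModuleCat.{x} Λ) [F.Additive] (hU : Subsingleton (F.obj U)) :
    Subsingleton (F.obj Z) := by
  obtain ⟨k, i, r, hir⟩ := h
  have h1 : 𝟙 (F.obj Z) = 0 := by
    rw [← F.map_id, ← hir, F.map_sum]
    refine Finset.sum_eq_zero fun j _ => ?_
    have h2 : F.map (i j) = 0 := by
      ext a
      exact @Subsingleton.elim _ hU _ _
    rw [F.map_comp, h2, zero_comp]
  exact ModuleCat.subsingleton_of_isZero ((IsZero.iff_id_eq_zero _).2 h1)

end Summand

section Tensor

variable {C : Type u} [Category.{v} C] [Preadditive C] [MonoidalCategory C]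
  [MonoidalPreadditive C] [SymmetricCategory C] [RightRigidCategory C]

/-- The object `Z` is a direct summand of a direct sum of copies of a power of `T ⊗ Tᘁ`. -/
def Generated (T Z : C) : Prop := ∃ n, IsSummand (tp (T ⊗ Tᘁ) n) Z

/-- The unit object is a direct summand of `T ⊗ Tᘁ`. -/
def UnitSummand (T : C) : Prop := IsSummand (T ⊗ Tᘁ) (𝟙_ C)

lemma isSummand_succ {S : C} (h : IsSummand S (𝟙_ C)) (n : ℕ) :
    IsSummand (tp S (n + 1)) (tp S n) :=
  (IsSummand.tensor (isSummand_refl (tp S n)) h).trans (isSummand_of_iso (ρ_ (tp S n)))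

lemma isSummand_le {S : C} (h : IsSummand S (𝟙_ C)) {m n : ℕ} (hmn : m ≤ n) :
    IsSummand (tp S n) (tp S m) := by
  induction n, hmn using Nat.le_induction with
  | base => exact isSummand_refl _
  | succ n _ ih => exact (isSummand_succ h n).trans ih

lemma tp_add_iso (S : C) (m n : ℕ) : Nonempty (tp S m ⊗ tp S n ≅ tp S (m + n)) := by
  obtain ⟨i, -⟩ := exists_tp_iso S m n
  exact ⟨i⟩

end Tensor

end Pool.Agent.Helper13GL
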