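import Pool.Agent.Helper13GL.Act

/-!
# Kimura finiteness of objects with a group action
-/

set_option autoImplicit false
set_option linter.unusedSectionVars false

open CategoryTheory Limits MonoidalCategory Module
open Pool.Agent.Y112.SR Pool.Agent.Y112.KD Pool.Agent.N64.AF
open Pool.Agent.R905

namespace Pool.Agent.Helper13GL

universe v u w t x

section

variable {C : Type u} [Category.{v} C] (G : Type) [Group G]

lemma act_idem [IsIdempotentComplete C] : IsIdempotentComplete (Action C G) := by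
  refine ⟨fun X p hp => ?_⟩
  obtain ⟨Y, i, e, h1, h2⟩ := IsIdempotentComplete.idempotents_split X.V p.hom
    (congrArg Action.Hom.hom hp)
  have hpi : i ≫ p.hom = i := by rw [← h2, ← Category.assoc, h1, Category.id_comp]
  have hpe : p.hom ≫ e = e := by rw [← h2, Category.assoc, h1, Category.comp_id]
  let Y' : Action C G := ⟨Y,
    { toFun := fun g => i ≫ (show X.V ⟶ X.V from X.ρ g) ≫ e
      map_one' := by
        have h3 : (show X.V ⟶ X.V from X.ρ 1) = 𝟙 _ := X.ρ.map_one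
        change i ≫ (show X.V ⟶ X.V from X.ρ 1) ≫ e = 𝟙 Y
        rw [h3, Category.id_comp, h1]
      map_mul' := fun g g' => by
        have h3 : (show X.V ⟶ X.V from X.ρ (g * g')) = X.ρ g' ≫ X.ρ g := X.ρ.map_mul g g'
        change i ≫ (show X.V ⟶ X.V from X.ρ (g * g')) ≫ e = (i ≫ X.ρ g' ≫ e) ≫ i ≫ X.ρ g ≫ e
        have h4 : X.ρ g' ≫ p.hom = p.hom ≫ X.ρ g' := p.comm g'
        calc i ≫ (show X.V ⟶ X.V from X.ρ (g * g')) ≫ e
            = i ≫ (X.ρ g' ≫ X.ρ g) ≫ e := by rw [h3]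
          _ = (i ≫ p.hom) ≫ X.ρ g' ≫ X.ρ g ≫ e := by rw [hpi, Category.assoc]
          _ = i ≫ (X.ρ g' ≫ p.hom) ≫ X.ρ g ≫ e := by rw [h4]; simp only [Category.assoc]
          _ = _ := by rw [← h2]; simp only [Category.assoc] }⟩
  let i' : Y' ⟶ X := ⟨i, fun g => by
    change (i ≫ (show X.V ⟶ X.V from X.ρ g) ≫ e) ≫ i = i ≫ X.ρ g
    have h4 : X.ρ g ≫ p.hom = p.hom ≫ X.ρ g := p.comm g
    rw [Category.assoc, Category.assoc, h2]
    change i ≫ X.ρ g ≫ p.hom = _
    rw [h4, reassoc_of% hpi]⟩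
  let e' : X ⟶ Y' := ⟨e, fun g => by
    change X.ρ g ≫ e = e ≫ i ≫ (show X.V ⟶ X.V from X.ρ g) ≫ e
    have h4 : X.ρ g ≫ p.hom = p.hom ≫ X.ρ g := p.comm g
    rw [reassoc_of% h2, ← reassoc_of% h4, hpe]⟩
  exact ⟨Y', i', e', Action.hom_ext _ _ h1, Action.hom_ext _ _ h2⟩

end

section

variable {C : Type u} [Category.{v} C] [Preadditive C] [MonoidalCategory C]
  [MonoidalPreadditive C] [SymmetricCategory C] [Linear ℚ C] [MonoidalLinear ℚ C]
  {G : Type} [Group G]

/-- The powers. -/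
noncomputable def tpV (E : Action C G) : ∀ n, (tp E n).V ≅ tp E.V n
  | 0 => Iso.refl _
  | n + 1 => whiskerRightIso (tpV E n) E.V

lemma tpV_succ (E : Action C G) (n : ℕ) : (tpV E (n + 1)).hom = (tpV E n).hom ▷ E.V := rfl

lemma asym_V (η : ℚ) (E : Action C G) : ∀ n : ℕ,
    (asym η E n).hom ≫ (tpV E n).hom = (tpV E n).hom ≫ asym η E.V n
  | 0 => by
    change 𝟙 _ ≫ 𝟙 _ = 𝟙 _ ≫ 𝟙 _
    rfl
  | 1 => by
    change 𝟙 _ ≫ (tpV E 1).hom = (tpV E 1).hom ≫ 𝟙 _
    rw [Category.id_comp, Category.comp_id]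
  | n + 2 => by
    have ih := asym_V η E (n + 1)
    have h1 : (asym η E (n + 1)).hom ▷ E.V ≫ (tpV E (n + 2)).hom =
        (tpV E (n + 2)).hom ≫ asym η E.V (n + 1) ▷ E.V := by
      rw [tpV_succ, ← comp_whiskerRight, ih, comp_whiskerRight]
    have h2 : sw (tp E n).V E.V ≫ (tpV E (n + 2)).hom = (tpV E (n + 2)).hom ≫ sw (tp E.V n) E.V := by
      rw [tpV_succ, tpV_succ]
      exact (sw_nat_left (tpV E n).hom).symm
    have h3 : (asym η E (n + 2)).hom = (((n + 1 : ℕ) : ℚ) + 1)⁻¹ • ((asym η E (n + 1)).hom ▷ E.V +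
      (η * ((n + 1 : ℕ) : ℚ)) • (((asym η E (n + 1)).hom ▷ E.V) ≫ sw (tp E n).V E.V ≫
        ((asym η E (n + 1)).hom ▷ E.V))) := by
      have h4 : (sw (tp E n) E).hom = sw (tp E n).V E.V := by
        simp [sw]
      rw [← h4, asym_succ, Action.smul_hom, Action.add_hom, Action.smul_hom]
      rfl
    rw [h3, asym_succ, Linear.smul_comp, Linear.comp_smul, Preadditive.add_comp,
      Preadditive.comp_add, h1, Linear.smul_comp, Linear.comp_smul]
    simp only [Category.assoc]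
    rw [h1, reassoc_of% h2, reassoc_of% h1]

lemma asym_V_zero {η : ℚ} {E : Action C G} {n : ℕ} (h : asym η E n = 0) : asym η E.V n = 0 := by
  have h1 := asym_V η E n
  rw [h] at h1
  have h2 : (tpV E n).hom ≫ asym η E.V n = 0 := by
    rw [← h1]
    exact zero_comp
  rw [← cancel_epi (tpV E n).hom, h2, comp_zero]

/-- Kimura finiteness of the underlying object. -/
theorem kimura_forget [IsIdempotentComplete C] {X : Action C G} (h : IsKimuraFinite X) :
    IsKimuraFinite X.V := by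
  have := act_idem (C := C) G
  obtain ⟨E, O, i, r, i', r', h1, h3, h5, ⟨n, hn⟩, m, hm⟩ := (isKimuraFinite_iff X).1 h
  exact (isKimuraFinite_iff X.V).2 ⟨E.V, O.V, i.hom, r.hom, i'.hom, r'.hom,
    congrArg Action.Hom.hom h1, congrArg Action.Hom.hom h3, congrArg Action.Hom.hom h5,
    ⟨n, asym_V_zero hn⟩, m, asym_V_zero hm⟩

end

end Pool.Agent.Helper13GL
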