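import Pool.Agent.Helper13GL.Gen

/-!
# Kernels of natural transformations on the objects generated by an object
-/

set_option autoImplicit false
set_option linter.unusedSectionVars false

open CategoryTheory Limits MonoidalCategory Module Filter Topology
open Pool.Agent.Y112.SR Pool.Agent.Y112.KD Pool.Agent.N64.AF Pool.Agent.N413.AFW
open scoped ENNReal

namespace Pool.Agent.Helper13GL

universe v u w t x

variable {C : Type u} [Category.{v} C] [Preadditive C] [MonoidalCategory C]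
  [MonoidalPreadditive C] [SymmetricCategory C] [RightRigidCategory C]

/-- The motives `h(X^e)(a)` are summands of sums of copies of `(T ⊗ Tᘁ)^e`. -/
lemma isSummand_twist {T D : C} {d : ℕ} (hD : ∀ a ≤ d, IsSummand Tᘁ (tp D a)) (e : ℕ) :
    ∀ a ≤ d * e, IsSummand (tp (T ⊗ Tᘁ) e) (tp T e ⊗ tp D a) := by
  induction e with
  | zero =>
    intro a ha
    obtain rfl : a = 0 := by simpa using ha
    exact isSummand_of_iso (λ_ (𝟙_ C)).symm
  | succ e ih =>
    intro a ha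
    obtain ⟨a', a'', h1, h2, rfl⟩ : ∃ a' a'' : ℕ, a' ≤ d * e ∧ a'' ≤ d ∧ a = a' + a'' := by
      refine ⟨a - min a d, min a d, ?_, min_le_right _ _, by omega⟩
      rw [Nat.mul_succ] at ha
      omega
    obtain ⟨i⟩ := tp_add_iso D a' a''
    have h3 : IsSummand (tp (T ⊗ Tᘁ) e ⊗ (T ⊗ Tᘁ)) ((tp T e ⊗ tp D a') ⊗ (T ⊗ tp D a'')) :=
      IsSummand.tensor (ih a' h1) (IsSummand.tensor (isSummand_refl T) (hD a'' h2))
    refine h3.trans (isSummand_of_iso ?_)
    exact (⟨tensorμ (tp T e) (tp D a') T (tp D a''), tensorδ (tp T e) (tp D a') T (tp D a''),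
      by simp, by simp⟩ : (tp T e ⊗ tp D a') ⊗ (T ⊗ tp D a'') ≅ (tp T e ⊗ T) ⊗ (tp D a' ⊗ tp D a'')) ≪≫
      whiskerLeftIso (tp T e ⊗ T) i

variable {Λ : Type t} [Field Λ] [CharZero Λ] [Linear Λ C] [MonoidalLinear Λ C]
  {K : Type w} [Field K] [IsAlgClosed K] [Algebra Λ K] {R : SuperRealisation C K}

lemma unit_summand (hR : IsReal Λ R) {T : C} (hT : R.CPlus T) (hb : 0 < bt R T) :
    IsSummand (T ⊗ Tᘁ) (𝟙_ C) := by
  obtain ⟨inst, hS⟩ := isPow_tensor_dual hR hT hb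
  obtain ⟨i, r, hir⟩ := hS.retract
  exact isSummand_of_retract i r hir

/-- Vanishing at the powers of `T ⊗ Tᘁ` and at all generated objects. -/
lemma forall_generated {T : C} (F : C ⥤ ModuleCat.{x} Λ) [F.Additive] :
    (∀ n, Subsingleton (F.obj (tp (T ⊗ Tᘁ) n))) ↔ ∀ Z, Generated T Z → Subsingleton (F.obj Z) := by
  constructor
  · rintro h Z ⟨n, hn⟩
    exact hn.subsingleton F (h n)
  · intro h n
    exact h _ ⟨n, isSummand_refl _⟩

/-- The explicit criterion for all objects generated in the degree `m`. -/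
lemma explicit_dual (hR : IsReal Λ R) {T : C} (hT : R.CPlus T) (hb : 0 < bt R T)
    (F : C ⥤ ModuleCat.{x} Λ) [F.Additive] [F.Linear Λ] {m n : ℕ}
    (hn : 128 * (m + 1) ^ 2 * bt R T ^ (4 * m + 12) ≤ n)
    (hlt : 2 * dimE Λ (F.obj (tp (T ⊗ Tᘁ) n)) < numRank Λ (tp (T ⊗ Tᘁ) n)) :
    Subsingleton (F.obj (tp (T ⊗ Tᘁ) m)) := by
  obtain ⟨inst, hS⟩ := isPow_tensor_dual hR hT hb
  obtain ⟨h1, h2⟩ := dimE_lt hlt
  have e1 : bt R (T ⊗ Tᘁ) = bt R T ^ 2 := by rw [bt_tensor, bt_dual, sq]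
  refine explicit_criterion hS F (m := m) (n := n) ?_ h1 h2
  rw [e1, ← pow_mul]
  have e2 : 2 * (2 * m + 6) = 4 * m + 12 := by ring
  rwa [e2]

lemma rightDual_unit : Nonempty ((𝟙_ C)ᘁ ≅ 𝟙_ C) :=
  ⟨rightDualIso (inferInstance : ExactPairing (𝟙_ C) (𝟙_ C)ᘁ) exactPairingUnit⟩

end Pool.Agent.Helper13GL
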