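import Pool.Agent.Helper13GL.Mot

/-!
# The asymptotic law for the kernels of the Abel-Jacobi maps
-/

set_option autoImplicit false
set_option linter.unusedSectionVars false

open CategoryTheory Limits MonoidalCategory Module Filter Topology
open Pool.Agent.Y112.SR Pool.Agent.Y112.KD Pool.Agent.N64.AF Pool.Agent.N413.AFW
open scoped ENNReal

namespace Pool.Agent.Helper13GL

universe v u w t x

section

variable {C : Type u} [Category.{v} C] [Preadditive C] [MonoidalCategory C]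
  [MonoidalPreadditive C] [SymmetricCategory C] [RightRigidCategory C]
  [Linear ℚ C] [MonoidalLinear ℚ C]
  {K : Type w} [Field K] [IsAlgClosed K] [Algebra ℚ K] {R : SuperRealisation C K}

/-- The Abel-Jacobi maps of the motives: `J Z` is the intermediate Jacobian of `Z`, for `Z = h(X)(m)` the
space `J^{2m-1}(X) ⊗ ℚ`, and `aj Z` is the Abel-Jacobi map on the homologically trivial classes. The
intermediate Jacobians are functorial (`map`), the Abel-Jacobi maps are natural, morphisms with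
trivial realisation act as zero on the intermediate Jacobians, and the intermediate Jacobians of
motives without odd cohomology are zero. -/
structure AbelJacobi (hR : IsReal ℚ R) where
  /-- the intermediate Jacobian -/
  J : C → Type v
  [acg : ∀ Z, AddCommGroup (J Z)]
  [mod : ∀ Z, Module ℚ (J Z)]
  /-- the Abel-Jacobi map -/
  aj : ∀ Z, homSub hR (𝟙_ C) Z →ₗ[ℚ] J Z
  /-- the functoriality of the intermediate Jacobians -/
  map : ∀ {Y Z : C}, (Y ⟶ Z) → (J Y →ₗ[ℚ] J Z)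
  natural : ∀ {Y Z : C} (f : Y ⟶ Z) (α : 𝟙_ C ⟶ Y) (h : R.H.map α = 0)
    (h' : R.H.map (α ≫ f) = 0), aj Z ⟨α ≫ f, h'⟩ = map f (aj Y ⟨α, h⟩)
  map_zero : ∀ {Y Z : C} (f : Y ⟶ Z), R.H.map f = 0 → map f = 0
  even : ∀ Z : C, R.par Z = 𝟙 _ → Subsingleton (J Z)

attribute [instance] AbelJacobi.acg AbelJacobi.mod

variable {hR : IsReal ℚ R} (Φ : AbelJacobi hR)

/-- The Abel-Jacobi map is injective on the homologically trivial classes on `Z`. -/
def AbelJacobi.InjectiveOn (Z : C) : Prop := Function.Injective (Φ.aj Z)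

/-- The dimension (a natural number or infinity) of the kernel of the Abel-Jacobi map for `Z`. -/
noncomputable def AbelJacobi.kernelDim (Z : C) : ℕ∞ := dimE ℚ (LinearMap.ker (Φ.aj Z))

/-- The family of the kernels. -/
def AbelJacobi.N (Z : C) : Submodule ℚ ((homF ℚ (𝟙_ C)).obj Z) :=
  (LinearMap.ker (Φ.aj Z)).map (homSub hR (𝟙_ C) Z).subtype

omit [IsAlgClosed K] in
lemma AbelJacobi.mem_N {Z : C} (α : 𝟙_ C ⟶ Z) :
    (α : (homF ℚ (𝟙_ C)).obj Z) ∈ Φ.N Z ↔ ∃ h : R.H.map α = 0, Φ.aj Z ⟨α, h⟩ = 0 := by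
  constructor
  · rintro ⟨⟨β, h⟩, h1, rfl⟩
    exact ⟨h, h1⟩
  · rintro ⟨h, h1⟩
    exact ⟨⟨α, h⟩, h1, rfl⟩

omit [IsAlgClosed K] in
lemma AbelJacobi.stab : IsStab (homF ℚ (𝟙_ C)) Φ.N := by
  intro Y Z f a ha
  obtain ⟨h, h1⟩ := (Φ.mem_N a).1 ha
  have h2 : R.H.map ((show 𝟙_ C ⟶ Y from a) ≫ f) = 0 := map_comp_zero _ h f
  have h3 : Φ.aj Z ⟨(show 𝟙_ C ⟶ Y from a) ≫ f, h2⟩ = 0 := by
    rw [Φ.natural f _ h h2]
    have h4 : Φ.aj Y ⟨(show 𝟙_ C ⟶ Y from a), h⟩ = 0 := h1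
    rw [h4, LinearMap.map_zero]
  exact (Φ.mem_N ((show 𝟙_ C ⟶ Y from a) ≫ f)).2 ⟨h2, h3⟩

omit [IsAlgClosed K] in
lemma AbelJacobi.dim_N (Z : C) : dimE ℚ (Φ.N Z) = Φ.kernelDim Z :=
  (dimE_congr (Submodule.equivMapOfInjective _ (Submodule.injective_subtype _)
    (LinearMap.ker (Φ.aj Z)))).symm

omit [IsAlgClosed K] in
lemma AbelJacobi.injectiveOn_iff (Z : C) :
    Φ.InjectiveOn Z ↔ Subsingleton (Φ.N Z) := by
  rw [AbelJacobi.InjectiveOn, ← LinearMap.ker_eq_bot, ← Submodule.subsingleton_iff_eq_bot]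
  exact (Submodule.equivMapOfInjective _ (Submodule.injective_subtype _)
    (LinearMap.ker (Φ.aj Z))).toEquiv.subsingleton_congr

lemma par_tensor_one {R : SuperRealisation C K} {Y Z : C} (hY : R.par Y = 𝟙 _)
    (hZ : R.par Z = 𝟙 _) : R.par (Y ⊗ Z) = 𝟙 _ := by
  have h := R.par_tensor Y Z
  rw [hY, hZ, MonoidalCategory.id_tensorHom_id, Category.id_comp] at h
  have h1 : Functor.LaxMonoidal.μ R.H Y Z ≫ R.par (Y ⊗ Z) =
      Functor.LaxMonoidal.μ R.H Y Z ≫ 𝟙 _ := by rw [h, Category.comp_id]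
  exact (cancel_epi _).1 h1

lemma par_tp_one {R : SuperRealisation C K} {T : C} (hT : R.par T = 𝟙 _) (n : ℕ) :
    R.par (tp T n) = 𝟙 _ := by
  induction n with
  | zero => exact R.par_unit
  | succ n ih => exact par_tensor_one ih hT

lemma cplus_of_par {R : SuperRealisation C K} {T : C} (hT : R.par T = 𝟙 _) : R.CPlus T := by
  refine ⟨𝟙 T, ?_⟩
  rw [hT, CategoryTheory.Functor.map_id, two_smul]

lemma IsMotive.bt_pos {T D : C} {d : ℕ} (hM : IsMotive T D d) (R : SuperRealisation C K) :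
    0 < bt R T := by
  rw [Nat.pos_iff_ne_zero]
  intro h0
  have h1 : bt R Tᘁ = 0 := by rw [bt_dual, h0]
  have h2 : Subsingleton (R.H.obj Tᘁ) := by
    have := R.finite Tᘁ
    exact finrank_zero_iff.1 h1
  have h3 : Subsingleton (R.H.obj (tp D 0)) :=
    (hM.hyperplane 0 (Nat.zero_le _)).subsingleton R.H h2
  have h4 : bt R (𝟙_ C) = 0 := @finrank_zero_of_subsingleton _ _ _ _ _ _ h3
  have h5 : bt R (𝟙_ C) = 1 := bt_unit R
  omega

/-- The general law. -/
theorem aj_law [IsIdempotentComplete C] {T D : C} {d : ℕ} (hM : IsMotive T D d) (hT : R.CPlus T) :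
    ∃ A : ℕ∞,
      Tendsto (fun n => ((Φ.kernelDim (mot T D (2 * n) (d * n)) : ℕ∞) : ℝ≥0∞) /
        numRank ℚ (mot T D (2 * n) (d * n))) atTop (𝓝 (A : ℝ≥0∞)) ∧
      (A = 0 ↔ ∀ e a, a ≤ d * e → Φ.InjectiveOn (mot T D e a)) ∧
      (A ≠ ⊤ → Pool.Agent.R905.IsKimuraFinite T) ∧
      ∀ e n, 128 * (e + 1) ^ 2 * bt R T ^ (4 * e + 12) ≤ n →
        2 * Φ.kernelDim (mot T D (2 * n) (d * n)) < numRank ℚ (mot T D (2 * n) (d * n)) →
        ∀ a, a ≤ d * e → Φ.InjectiveOn (mot T D e a) := by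
  have hb := hM.bt_pos R
  have hiso := fun n => (mot_iso hM.duality n)
  let F := sub (homF ℚ (𝟙_ C)) Φ.N Φ.stab
  have hk : ∀ n, dimE ℚ (Φ.N (tp (T ⊗ Tᘁ) n)) = Φ.kernelDim (mot T D (2 * n) (d * n)) := by
    intro n
    obtain ⟨i⟩ := hiso n
    rw [← Φ.dim_N]
    exact dimE_congr (isoEquiv F i)
  have hn : ∀ n, numRank ℚ (tp (T ⊗ Tᘁ) n) = numRank ℚ (mot T D (2 * n) (d * n)) := by
    intro n
    obtain ⟨i⟩ := hiso n
    exact numRank_congr hR i
  obtain ⟨⟨A, h1, h2⟩, -⟩ := dual_law hR hT hb F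
  have h1' : RatioTo ℚ (T ⊗ Tᘁ) (fun n => dimE ℚ (Φ.N (tp (T ⊗ Tᘁ) n))) A := by
    refine h1.congr fun n => ?_
    rw [numRank_tensor_dual hR]
    rfl
  refine ⟨A, ?_, ?_, fun hA => kimura_of_family hR hT hb Φ.N Φ.stab ?_ h1' hA, ?_⟩
  · refine h1'.congr fun n => ?_
    rw [← hk, ← hn]
  · rw [h2, forall_generated F]
    constructor
    · intro h e a ha
      rw [Φ.injectiveOn_iff]
      exact h _ ⟨e, isSummand_twist hM.hyperplane e a ha⟩
    · rintro h Z ⟨n, hZ⟩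
      refine hZ.subsingleton F ?_
      obtain ⟨i⟩ := hiso n
      have h3 : d * n ≤ d * (2 * n) := Nat.mul_le_mul_left d (by omega)
      have h4 : Subsingleton (F.obj (mot T D (2 * n) (d * n))) :=
        (Φ.injectiveOn_iff _).1 (h (2 * n) (d * n) h3)
      exact (isoEquiv F i).toEquiv.subsingleton
  · intro Y Z α f hα hf
    have h3 := map_comp_zero (R := R) α hα f
    refine (Φ.mem_N (α ≫ f)).2 ⟨h3, ?_⟩
    rw [Φ.natural f α hα h3, Φ.map_zero f hf, LinearMap.zero_apply]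
  · intro e n hn' hlt a ha
    rw [Φ.injectiveOn_iff]
    rw [← hk, ← hn] at hlt
    have h3 : Subsingleton (F.obj (tp (T ⊗ Tᘁ) e)) := by
      refine explicit_dual hR hT hb F hn' ?_
      exact hlt
    exact (isSummand_twist hM.hyperplane e a ha).subsingleton F h3

omit [IsAlgClosed K] in
/-- The kernel dimension for motives without odd cohomology. -/
lemma AbelJacobi.kernelDim_even {Z : C}
    (hZ : R.par Z = 𝟙 _) : Φ.kernelDim Z = dimE ℚ (homSub hR (𝟙_ C) Z) := by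
  have h1 : LinearMap.ker (Φ.aj Z) = ⊤ := by
    rw [eq_top_iff]
    intro a _
    exact @Subsingleton.elim _ (Φ.even Z hZ) _ _
  unfold AbelJacobi.kernelDim
  rw [h1]
  exact dimE_congr (Submodule.topEquiv)

end

end Pool.Agent.Helper13GL
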