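import Pool.Agent.Helper13GL.AJ

/-!
# The motives of the powers of a variety and their Tate twists
-/

set_option autoImplicit false
set_option linter.unusedSectionVars false

open CategoryTheory Limits MonoidalCategory Module Filter Topology
open Pool.Agent.Y112.SR Pool.Agent.Y112.KD Pool.Agent.N64.AF Pool.Agent.N413.AFW
open scoped ENNReal

namespace Pool.Agent.Helper13GL

universe v u w t x

section mot

variable {C : Type u} [Category.{v} C] [Preadditive C] [MonoidalCategory C]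
  [MonoidalPreadditive C] [SymmetricCategory C] [RightRigidCategory C]

/-- The motive `h(X^e)(a)`, where `T = h(X)` and `D` is the Tate motive `ℚ(1)`. -/
abbrev mot (T D : C) (e a : ℕ) : C := tp T e ⊗ tp D a

/-- The properties of the motive `T = h(X)` of a smooth projective variety `X` of dimension `d`:
Poincaré duality, that is, the dual of `h(X)` is `h(X)(d)`; and the Tate motives `ℚ(a)`, `a ≤ d`, are
direct summands of `h(X)(d)` (they are given by the powers of the class of a hyperplane section). -/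
structure IsMotive (T D : C) (d : ℕ) : Prop where
  duality : Nonempty (Tᘁ ≅ T ⊗ tp D d)
  hyperplane : ∀ a ≤ d, IsSummand Tᘁ (tp D a)

lemma mot_iso {T D : C} {d : ℕ} (h : Nonempty (Tᘁ ≅ T ⊗ tp D d)) (n : ℕ) :
    Nonempty (tp (T ⊗ Tᘁ) n ≅ mot T D (2 * n) (d * n)) := by
  induction n with
  | zero => exact ⟨(λ_ (𝟙_ C)).symm⟩
  | succ n ih =>
    obtain ⟨i⟩ := ih
    obtain ⟨j⟩ := h
    obtain ⟨k⟩ := tp_add_iso D (d * n) d
    refine ⟨(i ⊗ᵢ (whiskerLeftIso T j ≪≫ (α_ T T (tp D d)).symm)) ≪≫ ?_⟩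
    exact (⟨tensorμ (tp T (2 * n)) (tp D (d * n)) (T ⊗ T) (tp D d),
      tensorδ (tp T (2 * n)) (tp D (d * n)) (T ⊗ T) (tp D d), by simp, by simp⟩ :
        (tp T (2 * n) ⊗ tp D (d * n)) ⊗ ((T ⊗ T) ⊗ tp D d) ≅
          (tp T (2 * n) ⊗ (T ⊗ T)) ⊗ (tp D (d * n) ⊗ tp D d)) ≪≫
      ((α_ (tp T (2 * n)) T T).symm ⊗ᵢ k)

end mot

section dim

variable {C : Type u} [Category.{v} C] [Preadditive C] [MonoidalCategory C]
  [MonoidalPreadditive C] [SymmetricCategory C] [RightRigidCategory C]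
  {Λ : Type t} [Field Λ] [CharZero Λ] [Linear Λ C] [MonoidalLinear Λ C]
  {K : Type w} [Field K] [Algebra Λ K] {R : SuperRealisation C K}

/-- The linear equivalence given by an isomorphism. -/
noncomputable def isoEquiv (F : C ⥤ ModuleCat.{x} Λ) {Y Z : C} (e : Y ≅ Z) :
    F.obj Y ≃ₗ[Λ] F.obj Z := (F.mapIso e).toLinearEquiv

lemma dimE_congr {V : Type x} {W : Type v} [AddCommGroup V] [Module Λ V] [AddCommGroup W]
    [Module Λ W] (e : V ≃ₗ[Λ] W) : dimE Λ V = dimE Λ W := by
  by_cases hV : Module.Finite Λ V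
  · have hW : Module.Finite Λ W := Module.Finite.equiv e
    rw [dimE_eq, dimE_eq, e.finrank_eq]
  · have hW : ¬ Module.Finite Λ W := fun h => hV (Module.Finite.equiv e.symm)
    rw [dimE_top hV, dimE_top hW]

lemma kerDim_congr {F G : C ⥤ ModuleCat.{x} Λ} (φ : F ⟶ G) {Y Z : C} (e : Y ≅ Z) :
    kerDim φ Y = kerDim φ Z :=
  dimE_congr (isoEquiv (sub F _ (ker_stab φ)) e)

lemma numRank_congr (hR : IsReal Λ R) {Y Z : C} (e : Y ≅ Z) : numRank Λ Y = numRank Λ Z := by
  have h := (isoEquiv (quoS (homF Λ (𝟙_ C)) (numS Λ) (num_stab hR)) e).finrank_eq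
  exact h

end dim

end Pool.Agent.Helper13GL
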