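import Pool.Agent.Helper13GL.CKDual

/-!
# The filtration of Murre on the powers of a variety
-/

set_option autoImplicit false
set_option linter.unusedSectionVars false

open CategoryTheory Limits MonoidalCategory Module Filter Topology
open Pool.Agent.Y112.SR Pool.Agent.Y112.KD Pool.Agent.N64.AF
open Pool.Agent.Y116.MT (tr)
open Finset (range)
open scoped ENNReal

namespace Pool.Agent.Helper13GL

universe v u w t x

section

variable {C : Type u} [Category.{v} C] [Preadditive C] [MonoidalCategory C]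
  [MonoidalPreadditive C] [SymmetricCategory C] [RightRigidCategory C] [Linear ℚ C]
  [MonoidalLinear ℚ C] {K : Type w} [Field K] [Algebra ℚ K] {R : SuperRealisation C K}

/-- The projector of degree `k` of the product decomposition, on `h(X^e)(a)`. -/
abbrev prk {T : C} (D : C) (π : ℕ → (T ⟶ T)) (e a k : ℕ) : mot T D e a ⟶ mot T D e a :=
  piProd π e k ▷ tp D a

/-- The first step `F^1 CH^a(X^e)` of the filtration of Murre: the image of the operator
`π^0 + ⋯ + π^{2a-1}`, with the projectors `π^k` of the product decomposition of `X^e`. -/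
noncomputable def stepOne {T : C} (D : C) (π : ℕ → (T ⟶ T)) (e a : ℕ) :
    Submodule ℚ (𝟙_ C ⟶ mot T D e a) :=
  LinearMap.range (Linear.rightComp ℚ (𝟙_ C) (∑ k ∈ range (2 * a), prk D π e a k))

/-- The homologically trivial classes of nonnegative weights. -/
def wtN (R : SuperRealisation C K) (Z : Action C ℚˣ) :
    Submodule ℚ ((Action.forget C ℚˣ ⋙ homF ℚ (𝟙_ C)).obj Z) :=
  Submodule.span ℚ {α : 𝟙_ C ⟶ Z.V | R.H.map α = 0 ∧
    ∃ w : ℕ, ∀ t : ℚˣ, α ≫ Z.ρ t = (t : ℚ) ^ w • α}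

lemma wtN_stab (R : SuperRealisation C K) :
    IsStab (Action.forget C ℚˣ ⋙ homF ℚ (𝟙_ C)) (wtN R) := by
  intro Y Z f
  unfold wtN
  rw [Submodule.span_le]
  rintro (α : 𝟙_ C ⟶ Y.V) ⟨h1, w, h2⟩
  have h3 : R.H.map (α ≫ f.hom) = 0 := by
    rw [Functor.map_comp, h1, zero_comp]
  have h4 : ∀ t : ℚˣ, (α ≫ f.hom) ≫ Z.ρ t = (t : ℚ) ^ w • (α ≫ f.hom) := by
    intro t
    rw [Category.assoc, ← f.comm, ← Category.assoc, h2, Linear.smul_comp]
  exact Submodule.subset_span ⟨h3, w, h4⟩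

/-- The functor of the homologically trivial classes of nonnegative weights. -/
def wtF (R : SuperRealisation C K) : Action C ℚˣ ⥤ ModuleCat.{v} ℚ :=
  sub (Action.forget C ℚˣ ⋙ homF ℚ (𝟙_ C)) (wtN R) (wtN_stab R)

instance (R : SuperRealisation C K) : (wtF R).Additive := by
  unfold wtF
  infer_instance

instance (R : SuperRealisation C K) : (wtF R).Linear ℚ := by
  unfold wtF
  infer_instance

variable {T D : C} {d : ℕ} {π : ℕ → (T ⟶ T)}

lemma prk_comp (h : IsDecomposition π (2 * d)) (e a k l : ℕ) :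
    prk D π e a k ≫ prk D π e a l = if k = l then prk D π e a k else 0 := by
  unfold prk
  rw [← comp_whiskerRight]
  split_ifs with hkl
  · rw [hkl, (h.prod e).idem]
  · rw [(h.prod e).orth _ _ hkl, MonoidalPreadditive.zero_whiskerRight]

lemma prk_sum (h : IsDecomposition π (2 * d)) (e a : ℕ) :
    ∑ k ∈ range (2 * d * e + 1), prk D π e a k = 𝟙 _ := by
  unfold prk
  rw [← sum_whiskerRight, (h.prod e).sum_eq, id_whiskerRight]

lemma prk_zero (h : IsDecomposition π (2 * d)) (e a k : ℕ) (hk : 2 * d * e < k) :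
    prk D π e a k = 0 := by
  unfold prk
  rw [(h.prod e).zero k hk, MonoidalPreadditive.zero_whiskerRight]

lemma prk_sum' (h : IsDecomposition π (2 * d)) (e a : ℕ) {N : ℕ} (hN : 2 * d * e + 1 ≤ N) :
    ∑ k ∈ range N, prk D π e a k = 𝟙 _ := by
  rw [← prk_sum h e a]
  symm
  refine Finset.sum_subset (Finset.range_subset_range.2 hN) fun k _ hk => ?_
  rw [Finset.mem_range, not_lt] at hk
  exact prk_zero h e a k (by omega)

/-- The action on `h(X^e)(a)`. -/
def rhoM (D : C) (π : ℕ → (T ⟶ T)) (d e a : ℕ) (t : ℚˣ) : mot T D e a ⟶ mot T D e a :=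
  rho (piProd π e) (2 * d * e) (t : ℚ) ⊗ₘ (((t⁻¹ : ℚˣ) : ℚ) ^ (2 * a) • 𝟙 (tp D a))

lemma rhoM_eq (D : C) (π : ℕ → (T ⟶ T)) (d e a : ℕ) (t : ℚˣ) : rhoM D π d e a t =
    (((t⁻¹ : ℚˣ) : ℚ) ^ (2 * a)) • (rho (piProd π e) (2 * d * e) (t : ℚ) ▷ tp D a) := by
  unfold rhoM
  rw [tensorHom_smul, MonoidalCategory.tensorHom_id]

lemma prk_rho (h : IsDecomposition π (2 * d)) (e a k : ℕ) (t : ℚˣ) :
    prk D π e a k ≫ rhoM D π d e a t =
      (((t⁻¹ : ℚˣ) : ℚ) ^ (2 * a) * (t : ℚ) ^ k) • prk D π e a k := by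
  rw [rhoM_eq, Linear.comp_smul, ← comp_whiskerRight, (h.prod e).comp_rho,
    MonoidalLinear.smul_whiskerRight, smul_smul]

lemma rho_prk (h : IsDecomposition π (2 * d)) (e a k : ℕ) (t : ℚˣ) :
    rhoM D π d e a t ≫ prk D π e a k =
      (((t⁻¹ : ℚˣ) : ℚ) ^ (2 * a) * (t : ℚ) ^ k) • prk D π e a k := by
  rw [rhoM_eq, Linear.smul_comp, ← comp_whiskerRight, (h.prod e).rho_comp,
    MonoidalLinear.smul_whiskerRight, smul_smul]

lemma scal_pos (t : ℚˣ) {a k : ℕ} (hk : 2 * a ≤ k) :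
    ((t⁻¹ : ℚˣ) : ℚ) ^ (2 * a) * (t : ℚ) ^ k = (t : ℚ) ^ (k - 2 * a) := by
  have h0 : (t : ℚ) ≠ 0 := t.ne_zero
  obtain ⟨l, rfl⟩ := Nat.exists_eq_add_of_le hk
  rw [Nat.add_sub_cancel_left, pow_add, ← mul_assoc, ← mul_pow, Units.val_inv_eq_inv_val,
    inv_mul_cancel₀ h0, one_pow, one_mul]

/-- The operator `π^0 + ⋯ + π^{2a-1}`. -/
abbrev lowOp (D : C) (π : ℕ → (T ⟶ T)) (e a : ℕ) : mot T D e a ⟶ mot T D e a :=
  ∑ k ∈ range (2 * a), prk D π e a k

lemma lowOp_idem (h : IsDecomposition π (2 * d)) (e a : ℕ) :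
    lowOp D π e a ≫ lowOp D π e a = lowOp D π e a := by
  unfold lowOp
  rw [Preadditive.sum_comp]
  refine Finset.sum_congr rfl fun k hk => ?_
  rw [Preadditive.comp_sum, Finset.sum_eq_single k]
  · rw [prk_comp h, if_pos rfl]
  · intro l _ hl
    rw [prk_comp h, if_neg (Ne.symm hl)]
  · intro hk'
    exact absurd hk hk'

lemma prk_lowOp (h : IsDecomposition π (2 * d)) (e a k : ℕ) :
    prk D π e a k ≫ lowOp D π e a = if k < 2 * a then prk D π e a k else 0 := by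
  unfold lowOp
  rw [Preadditive.comp_sum]
  simp only [prk_comp h]
  rw [Finset.sum_ite_eq]
  simp only [Finset.mem_range]

lemma lowOp_prk (h : IsDecomposition π (2 * d)) (e a k : ℕ) :
    lowOp D π e a ≫ prk D π e a k = if k < 2 * a then prk D π e a k else 0 := by
  unfold lowOp
  rw [Preadditive.sum_comp]
  simp only [prk_comp h]
  rw [Finset.sum_ite_eq']
  simp only [Finset.mem_range]

/-- The homologically trivial classes of nonnegative weights on `h(X^e)(a)`. -/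
def wtC (R : SuperRealisation C K) (D : C) (π : ℕ → (T ⟶ T)) (d e a : ℕ) :
    Submodule ℚ (𝟙_ C ⟶ mot T D e a) :=
  Submodule.span ℚ {α | R.H.map α = 0 ∧ ∃ w : ℕ, ∀ t : ℚˣ, α ≫ rhoM D π d e a t = (t : ℚ) ^ w • α}

lemma map_smul_zero {Y Z : C} {f : Y ⟶ Z} (h : R.H.map f = 0) (c : ℚ) : R.H.map (c • f) = 0 := by
  have h8 : c • f = f ≫ (c • 𝟙 _) := by rw [Linear.comp_smul, Category.comp_id]
  rw [h8, Functor.map_comp, h, zero_comp]

lemma weight_low (h : IsDecomposition π (2 * d)) (e a : ℕ) {α : 𝟙_ C ⟶ mot T D e a} {w : ℕ}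
    (h2 : ∀ t : ℚˣ, α ≫ rhoM D π d e a t = (t : ℚ) ^ w • α) : α ≫ lowOp D π e a = 0 := by
  unfold lowOp
  rw [Preadditive.comp_sum]
  refine Finset.sum_eq_zero fun k hk => ?_
  rw [Finset.mem_range] at hk
  have h3 := congrArg (fun q => q ≫ prk D π e a k) (h2 (Units.mk0 2 two_ne_zero))
  simp only [Category.assoc] at h3
  rw [rho_prk h, Linear.comp_smul, Linear.smul_comp] at h3
  have h4 : ((((Units.mk0 (2 : ℚ) two_ne_zero)⁻¹ : ℚˣ) : ℚ) ^ (2 * a) *
      ((Units.mk0 (2 : ℚ) two_ne_zero : ℚˣ) : ℚ) ^ k) ≠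
      ((Units.mk0 (2 : ℚ) two_ne_zero : ℚˣ) : ℚ) ^ w := by
    rw [Units.val_inv_eq_inv_val, Units.val_mk0]
    have h5 : ((2 : ℚ)⁻¹ ^ (2 * a) * 2 ^ k) < 1 := by
      rw [inv_pow, inv_mul_lt_iff₀ (by positivity), mul_one]
      exact pow_lt_pow_right₀ (by norm_num) hk
    have h6 : (1 : ℚ) ≤ 2 ^ w := one_le_pow₀ (by norm_num)
    exact (lt_of_lt_of_le h5 h6).ne
  have h7 : ((((Units.mk0 (2 : ℚ) two_ne_zero)⁻¹ : ℚˣ) : ℚ) ^ (2 * a) *
      ((Units.mk0 (2 : ℚ) two_ne_zero : ℚˣ) : ℚ) ^ k -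
      ((Units.mk0 (2 : ℚ) two_ne_zero : ℚˣ) : ℚ) ^ w) • (α ≫ prk D π e a k) = 0 := by
    rw [sub_smul, h3, sub_self]
  exact (smul_eq_zero.1 h7).resolve_left (sub_ne_zero.2 h4)

lemma mem_wtC (h : IsDecomposition π (2 * d)) (e a : ℕ) (α : 𝟙_ C ⟶ mot T D e a) :
    α ∈ wtC R D π d e a ↔ R.H.map α = 0 ∧ α ≫ lowOp D π e a = 0 := by
  constructor
  · intro hα
    refine Submodule.span_induction (p := fun α _ => R.H.map α = 0 ∧
      α ≫ lowOp D π e a = 0) ?_ ?_ ?_ ?_ hα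
    · rintro β ⟨h1, w, h2⟩
      exact ⟨h1, weight_low h e a h2⟩
    · exact ⟨R.H.map_zero _ _, zero_comp⟩
    · rintro x y _ _ ⟨hx1, hx2⟩ ⟨hy1, hy2⟩
      exact ⟨by rw [Functor.map_add, hx1, hy1, add_zero],
        by rw [Preadditive.add_comp, hx2, hy2, add_zero]⟩
    · rintro c x _ ⟨hx1, hx2⟩
      exact ⟨map_smul_zero hx1 c, by rw [Linear.smul_comp, hx2, smul_zero]⟩
  · rintro ⟨h1, h2⟩
    have h3 : α = ∑ k ∈ range (2 * d * e + 1 + 2 * a), α ≫ prk D π e a k := by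
      rw [← Preadditive.comp_sum, prk_sum' h e a (by omega), Category.comp_id]
    rw [h3]
    refine Submodule.sum_mem _ fun k _ => ?_
    by_cases hk : k < 2 * a
    · have h5 : α ≫ prk D π e a k = 0 := by
        have h6 := congrArg (fun q => q ≫ prk D π e a k) h2
        simp only [Category.assoc, zero_comp] at h6
        rwa [lowOp_prk h, if_pos hk] at h6
      rw [h5]
      exact Submodule.zero_mem _
    · refine Submodule.subset_span ⟨?_, k - 2 * a, fun t => ?_⟩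
      · rw [Functor.map_comp, h1, zero_comp]
      · rw [Category.assoc, prk_rho h, Linear.comp_smul, scal_pos t (by omega)]

lemma wtN_eq (h : IsDecomposition π (2 * d)) (e a : ℕ) :
    wtN R (motG D h 2 e a) = wtC R D π d e a := rfl

end

end Pool.Agent.Helper13GL
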