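import Pool.Agent.Helper13GL.Murre
import Pool.Agent.Helper13GL.Main

/-!
# The growth law for the filtration of Murre
-/

set_option autoImplicit false
set_option linter.unusedSectionVars false

open CategoryTheory Limits MonoidalCategory Module Filter Topology
open Pool.Agent.Y112.SR Pool.Agent.Y112.KD Pool.Agent.N64.AF
open Pool.Agent.Y116.MT (tr)
open Finset (range)
open scoped ENNReal

namespace Pool.Agent.Helper13GL

universe v u w t x

section

variable {C : Type u} [Category.{v} C] [Preadditive C] [MonoidalCategory C]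
  [MonoidalPreadditive C] [SymmetricCategory C] [RightRigidCategory C] [Linear ℚ C]
  [MonoidalLinear ℚ C] {K : Type w} [Field K] [Algebra ℚ K] {R : SuperRealisation C K}
  {T D : C} {d : ℕ} {π : ℕ → (T ⟶ T)}

/-- The operator `π^0 + ⋯ + π^{2a-1}` kills the cohomology classes of the cycles. -/
lemma IsChowKunneth.map_lowOp (h : IsChowKunneth R T D d π) (e a : ℕ) (α : 𝟙_ C ⟶ mot T D e a) :
    R.H.map (α ≫ lowOp D π e a) = 0 := by
  rw [lowOp, Preadditive.comp_sum, Functor.map_sum]
  refine Finset.sum_eq_zero fun k hk => ?_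
  rw [Finset.mem_range] at hk
  exact h.degree e a k (by omega) α

/-- The first step of the filtration is contained in the space of the homologically trivial
classes. -/
lemma IsChowKunneth.stepOne_le (h : IsChowKunneth R T D d π) (hR : IsReal ℚ R) (e a : ℕ) :
    stepOne D π e a ≤ homSub hR (𝟙_ C) (mot T D e a) := by
  rintro _ ⟨α, rfl⟩
  exact h.map_lowOp e a α

/-- The space `CH^a_hom(X^e) / F^1 CH^a(X^e)`. -/
abbrev Defect (hR : IsReal ℚ R) (D : C) (π : ℕ → (T ⟶ T)) (e a : ℕ) : Type v :=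
  homSub hR (𝟙_ C) (mot T D e a) ⧸
    (stepOne D π e a).comap (homSub hR (𝟙_ C) (mot T D e a)).subtype

/-- Murre's conjecture (D) for the power `X^e` in codimension `a`. -/
def MurreD (hR : IsReal ℚ R) (D : C) (π : ℕ → (T ⟶ T)) (e a : ℕ) : Prop :=
  stepOne D π e a = homSub hR (𝟙_ C) (mot T D e a)

/-- The map `α ↦ α - (π^0 + ⋯ + π^{2a-1}) α`. -/
noncomputable def toWt (h : IsChowKunneth R T D d π) (hR : IsReal ℚ R) (e a : ℕ) :
    homSub hR (𝟙_ C) (mot T D e a) →ₗ[ℚ] wtC R D π d e a :=
  LinearMap.codRestrict _ ((LinearMap.id - Linear.rightComp ℚ (𝟙_ C) (lowOp D π e a)) ∘ₗ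
    (homSub hR (𝟙_ C) (mot T D e a)).subtype) (by
    rintro ⟨α, hα⟩
    rw [mem_wtC h.decomposition]
    change R.H.map (α - α ≫ lowOp D π e a) = 0 ∧ (α - α ≫ lowOp D π e a) ≫ lowOp D π e a = 0
    have hα' : R.H.map α = 0 := hα
    constructor
    · rw [Functor.map_sub, hα', h.map_lowOp, sub_zero]
    · rw [Preadditive.sub_comp, Category.assoc, lowOp_idem h.decomposition, sub_self])

lemma toWt_apply (h : IsChowKunneth R T D d π) (hR : IsReal ℚ R) (e a : ℕ)
    (α : homSub hR (𝟙_ C) (mot T D e a)) :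
    ((toWt h hR e a α : wtC R D π d e a) : 𝟙_ C ⟶ mot T D e a) =
      α.1 - α.1 ≫ lowOp D π e a := rfl

lemma toWt_surjective (h : IsChowKunneth R T D d π) (hR : IsReal ℚ R) (e a : ℕ) :
    Function.Surjective (toWt h hR e a) := by
  rintro ⟨β, hβ⟩
  have hβ' := hβ
  rw [mem_wtC h.decomposition] at hβ'
  refine ⟨⟨β, hβ'.1⟩, Subtype.ext ?_⟩
  rw [toWt_apply]
  change β - β ≫ lowOp D π e a = β
  rw [hβ'.2, sub_zero]

lemma toWt_ker (h : IsChowKunneth R T D d π) (hR : IsReal ℚ R) (e a : ℕ) :
    LinearMap.ker (toWt h hR e a) =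
      (stepOne D π e a).comap (homSub hR (𝟙_ C) (mot T D e a)).subtype := by
  ext α
  rw [LinearMap.mem_ker, Submodule.mem_comap]
  constructor
  · intro h1
    have h2 : α.1 - α.1 ≫ lowOp D π e a = 0 := by
      rw [← toWt_apply h hR, h1]
      rfl
    exact ⟨α.1, (sub_eq_zero.1 h2).symm⟩
  · rintro ⟨β, hβ⟩
    have h1 : β ≫ lowOp D π e a = α.1 := hβ
    refine Subtype.ext ?_
    rw [toWt_apply, ← h1, Category.assoc, lowOp_idem h.decomposition, sub_self]
    rfl

/-- The comparison. -/
noncomputable def defectEquiv (h : IsChowKunneth R T D d π) (hR : IsReal ℚ R) (e a : ℕ) :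
    Defect hR D π e a ≃ₗ[ℚ] wtC R D π d e a :=
  (Submodule.quotEquivOfEq _ _ (toWt_ker h hR e a).symm) ≪≫ₗ
    (toWt h hR e a).quotKerEquivOfSurjective (toWt_surjective h hR e a)

lemma murreD_iff (h : IsChowKunneth R T D d π) (hR : IsReal ℚ R) (e a : ℕ) :
    MurreD hR D π e a ↔ Subsingleton (wtC R D π d e a) := by
  rw [← (defectEquiv h hR e a).toEquiv.subsingleton_congr, Submodule.Quotient.subsingleton_iff,
    Submodule.comap_subtype_eq_top]
  exact ⟨fun h1 => h1.symm.le, fun h1 => le_antisymm (h.stepOne_le hR e a) h1⟩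

/-- The projector to the even part. -/
def evenPr (π : ℕ → (T ⟶ T)) (d : ℕ) : T ⟶ T :=
  ∑ i ∈ range (2 * d + 1), if Even i then π i else 0

lemma evenPr_rho (h : IsChowKunneth R T D d π) (t : ℚ) :
    rho π (2 * d) t ≫ evenPr π d = evenPr π d ≫ rho π (2 * d) t := by
  unfold evenPr
  rw [Preadditive.comp_sum, Preadditive.sum_comp]
  refine Finset.sum_congr rfl fun i _ => ?_
  split_ifs with hi
  · rw [h.decomposition.rho_comp, h.decomposition.comp_rho]
  · rw [comp_zero, zero_comp]

lemma evenPr_map (h : IsChowKunneth R T D d π) :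
    (2 : K) • R.H.map (evenPr π d) = 𝟙 _ + R.par T := by
  have h1 : R.par T = ∑ i ∈ range (2 * d + 1), (-1 : K) ^ i • R.H.map (π i) := by
    calc R.par T = R.H.map (∑ i ∈ range (2 * d + 1), π i) ≫ R.par T := by
          rw [h.decomposition.sum_eq, CategoryTheory.Functor.map_id, Category.id_comp]
      _ = _ := by
          rw [Functor.map_sum, Preadditive.sum_comp]
          exact Finset.sum_congr rfl fun i _ => h.parity i
  have h2 : 𝟙 (R.H.obj T) = ∑ i ∈ range (2 * d + 1), R.H.map (π i) := by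
    rw [← Functor.map_sum, h.decomposition.sum_eq, CategoryTheory.Functor.map_id]
  unfold evenPr
  rw [h1, h2, Functor.map_sum, Finset.smul_sum, ← Finset.sum_add_distrib]
  refine Finset.sum_congr rfl fun i _ => ?_
  rcases Nat.even_or_odd i with hi | hi
  · rw [if_pos hi, hi.neg_one_pow, one_smul, two_smul]
  · rw [if_neg (Nat.not_even_iff_odd.2 hi), hi.neg_one_pow, Functor.map_zero, smul_zero, neg_smul,
      one_smul, add_neg_cancel]

/-- The sign conjecture. -/
lemma IsChowKunneth.cplus_act (h : IsChowKunneth R T D d π) :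
    (actReal ℚˣ R).CPlus (objT h.decomposition) :=
  actReal_cplus (X := objT h.decomposition) (evenPr π d) (fun t => evenPr_rho h (t : ℚ))
    (evenPr_map h)

lemma bt_act (h : IsChowKunneth R T D d π) : bt (actReal ℚˣ R) (objT h.decomposition) = bt R T := rfl

end

end Pool.Agent.Helper13GL
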