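import Pool.Agent.Helper13GL.MurreRank
import Pool.Agent.Helper13GL.KimAct

/-!
# The asymptotic law for Murre's conjecture (D)
-/

set_option autoImplicit false
set_option linter.unusedSectionVars false

open CategoryTheory Limits MonoidalCategory Module Filter Topology
open Pool.Agent.Y112.SR Pool.Agent.Y112.KD Pool.Agent.N64.AF
open Pool.Agent.Y116.MT (tr)
open Finset (range)
open scoped ENNReal

namespace Pool.Agent.Helper13GL

universe v u w t x

section

variable {C : Type u} [Category.{v} C] [Preadditive C] [MonoidalCategory C]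
  [MonoidalPreadditive C] [SymmetricCategory C] [RightRigidCategory C] [Linear ℚ C]
  [MonoidalLinear ℚ C] {K : Type w} [Field K] [Algebra ℚ K] {R : SuperRealisation C K}
  {T D : C} {d : ℕ} {π : ℕ → (T ⟶ T)}

/-- The dimension, a natural number or infinity, of `CH^a_hom(X^e) / F^1 CH^a(X^e)`. -/
noncomputable def defectDim (hR : IsReal ℚ R) (D : C) (π : ℕ → (T ⟶ T)) (e a : ℕ) : ℕ∞ :=
  dimE ℚ (Defect hR D π e a)

lemma defect_wtF (h : IsChowKunneth R T D d π) (hR : IsReal ℚ R) (e a : ℕ) :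
    defectDim hR D π e a = dimE ℚ ((wtF R).obj (mot (objT h.decomposition) (objS D 2) e a)) := by
  obtain ⟨i⟩ := isoMot D h.decomposition 2 e a
  exact (dimE_congr (defectEquiv h hR e a)).trans (dimE_congr (isoEquiv (wtF R) i)).symm

lemma murreD_wtF (h : IsChowKunneth R T D d π) (hR : IsReal ℚ R) (e a : ℕ) :
    MurreD hR D π e a ↔
      Subsingleton ((wtF R).obj (mot (objT h.decomposition) (objS D 2) e a)) := by
  obtain ⟨i⟩ := isoMot D h.decomposition 2 e a
  rw [murreD_iff h hR]
  exact (isoEquiv (wtF R) i).toEquiv.subsingleton_congr.symm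

lemma rank_wtF (h : IsChowKunneth R T D d π) (hR : IsReal ℚ R) (e a : ℕ) :
    numRank ℚ (mot (objT h.decomposition) (objS D 2) e a) = numRank ℚ (mot T D e a) := by
  obtain ⟨i⟩ := isoMot D h.decomposition 2 e a
  rw [numRank_congr (actReal_isReal (G := ℚˣ) hR) i, h.numRank_act hR]

variable [IsAlgClosed K]

/-- The law for an additive functor on the objects with action. -/
theorem act_law (h : IsChowKunneth R T D d π) (hR : IsReal ℚ R)
    (F : Action C ℚˣ ⥤ ModuleCat.{x} ℚ) [F.Additive] [F.Linear ℚ] :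
    ∃ A : ℕ∞,
      Tendsto (fun n => ((dimE ℚ (F.obj (mot (objT h.decomposition) (objS D 2) (2 * n) (d * n))) :
        ℕ∞) : ℝ≥0∞) / numRank ℚ (mot T D (2 * n) (d * n))) atTop (𝓝 (A : ℝ≥0∞)) ∧
      RatioTo ℚ (objT h.decomposition ⊗ (objT h.decomposition)ᘁ)
        (fun n => dimE ℚ (F.obj (tp (objT h.decomposition ⊗ (objT h.decomposition)ᘁ) n))) A ∧
      (A = 0 ↔ ∀ e a, a ≤ d * e →
        Subsingleton (F.obj (mot (objT h.decomposition) (objS D 2) e a))) ∧
      ∀ e n, 128 * (e + 1) ^ 2 * bt R T ^ (4 * e + 12) ≤ n →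
        2 * dimE ℚ (F.obj (mot (objT h.decomposition) (objS D 2) (2 * n) (d * n))) <
          numRank ℚ (mot T D (2 * n) (d * n)) →
        ∀ a, a ≤ d * e → Subsingleton (F.obj (mot (objT h.decomposition) (objS D 2) e a)) := by
  have hM := h.isMotive
  have hR' := actReal_isReal (G := ℚˣ) hR
  have hT := h.cplus_act
  have hb := hM.bt_pos (actReal ℚˣ R)
  have hk : ∀ n, dimE ℚ (F.obj (tp (objT h.decomposition ⊗ (objT h.decomposition)ᘁ) n)) =
      dimE ℚ (F.obj (mot (objT h.decomposition) (objS D 2) (2 * n) (d * n))) := by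
    intro n
    obtain ⟨i⟩ := mot_iso hM.duality n
    exact dimE_congr (isoEquiv F i)
  have hn : ∀ n, numRank ℚ (tp (objT h.decomposition ⊗ (objT h.decomposition)ᘁ) n) =
      numRank ℚ (mot T D (2 * n) (d * n)) := by
    intro n
    obtain ⟨i⟩ := mot_iso hM.duality n
    rw [numRank_congr hR' i, rank_wtF h hR]
  obtain ⟨⟨A, h1, h2⟩, -⟩ := dual_law hR' hT hb F
  have h1' : RatioTo ℚ (objT h.decomposition ⊗ (objT h.decomposition)ᘁ)
      (fun n => dimE ℚ (F.obj (tp (objT h.decomposition ⊗ (objT h.decomposition)ᘁ) n))) A := by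
    refine h1.congr fun n => ?_
    rw [numRank_tensor_dual hR']
  refine ⟨A, ?_, h1', ?_, ?_⟩
  · refine h1'.congr fun n => ?_
    rw [← hk, ← hn]
  · rw [h2, forall_generated F]
    constructor
    · intro h3 e a ha
      exact h3 _ ⟨e, isSummand_twist hM.hyperplane e a ha⟩
    · rintro h3 Z ⟨n, hZ⟩
      refine hZ.subsingleton F ?_
      obtain ⟨i⟩ := mot_iso hM.duality n
      have h4 : d * n ≤ d * (2 * n) := Nat.mul_le_mul_left d (by omega)
      have h5 := h3 (2 * n) (d * n) h4
      exact (isoEquiv F i).toEquiv.subsingleton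
  · intro e n hn' hlt a ha
    rw [← hk, ← hn] at hlt
    have h3 : Subsingleton
        (F.obj (tp (objT h.decomposition ⊗ (objT h.decomposition)ᘁ) e)) :=
      explicit_dual hR' hT hb F (by rw [bt_act h]; exact hn') hlt
    exact (isSummand_twist hM.hyperplane e a ha).subsingleton F h3

/-- The family of the homologically trivial classes. -/
def homN (hR : IsReal ℚ R) (Z : C) : Submodule ℚ ((homF ℚ (𝟙_ C)).obj Z) := homSub hR (𝟙_ C) Z

omit [IsAlgClosed K] in
lemma homN_stab (hR : IsReal ℚ R) : IsStab (homF ℚ (𝟙_ C)) (homN hR) := by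
  intro Y Z f a ha
  exact map_comp_zero (show 𝟙_ C ⟶ Y from a) ha f

/-- The inclusion of the equivariant homologically trivial classes in the classes of nonnegative
weights. -/
noncomputable def incl (hR : IsReal ℚ R) (Z : Action C ℚˣ) :
    homN (actReal_isReal (G := ℚˣ) hR) Z →ₗ[ℚ] wtN R Z where
  toFun α := ⟨(show 𝟙_ (Action C ℚˣ) ⟶ Z from α.1).hom, Submodule.subset_span ⟨α.2, 0, fun t => by
    rw [pow_zero, one_smul]
    exact ((show 𝟙_ (Action C ℚˣ) ⟶ Z from α.1).comm t).symm.trans (Category.id_comp _)⟩⟩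
  map_add' _ _ := rfl
  map_smul' _ _ := rfl

omit [IsAlgClosed K] in
lemma incl_injective (hR : IsReal ℚ R) (Z : Action C ℚˣ) : Function.Injective (incl hR Z) := by
  intro α β hαβ
  exact Subtype.ext (Action.hom_ext _ _ (congrArg Subtype.val hαβ))

omit [IsAlgClosed K] in
lemma dimE_le_of_injective {V W : Type v} [AddCommGroup V] [Module ℚ V] [AddCommGroup W]
    [Module ℚ W] (f : V →ₗ[ℚ] W) (hf : Function.Injective f) : dimE ℚ V ≤ dimE ℚ W := by
  by_cases hW : Module.Finite ℚ W
  · have hV : Module.Finite ℚ V := Module.Finite.of_injective f hf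
    rw [dimE_eq, dimE_eq]
    exact_mod_cast LinearMap.finrank_le_finrank_of_injective hf
  · rw [dimE_top hW]
    exact le_top

/-- The law for Murre's conjecture (D). -/
theorem murre_law [IsIdempotentComplete C] (h : IsChowKunneth R T D d π) (hR : IsReal ℚ R) :
    ∃ A : ℕ∞,
      Tendsto (fun n => ((defectDim hR D π (2 * n) (d * n) : ℕ∞) : ℝ≥0∞) /
        numRank ℚ (mot T D (2 * n) (d * n))) atTop (𝓝 (A : ℝ≥0∞)) ∧
      (A = 0 ↔ ∀ e a, a ≤ d * e → MurreD hR D π e a) ∧
      (A ≠ ⊤ → Pool.Agent.R905.IsKimuraFinite T) ∧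
      ∀ e n, 128 * (e + 1) ^ 2 * bt R T ^ (4 * e + 12) ≤ n →
        2 * defectDim hR D π (2 * n) (d * n) < numRank ℚ (mot T D (2 * n) (d * n)) →
        ∀ a, a ≤ d * e → MurreD hR D π e a := by
  have hM := h.isMotive
  have hR' := actReal_isReal (G := ℚˣ) hR
  have hb := hM.bt_pos (actReal ℚˣ R)
  obtain ⟨A, h1, h1', h2, h3⟩ := act_law h hR (wtF R)
  refine ⟨A, ?_, ?_, ?_, ?_⟩
  · refine h1.congr fun n => ?_
    rw [defect_wtF h hR]
  · rw [h2]
    simp only [murreD_wtF h hR]
  · intro hA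
    obtain ⟨A', -, h4, -, -⟩ := act_law h hR (sub (homF ℚ (𝟙_ (Action C ℚˣ))) (homN hR')
      (homN_stab hR'))
    have hle : (A' : ℝ≥0∞) ≤ (A : ℝ≥0∞) := by
      refine le_of_tendsto_of_tendsto' h4 h1' fun n => ?_
      refine ENNReal.div_le_div_right ?_ _
      have h5 : dimE ℚ (homN hR' (tp (objT h.decomposition ⊗ (objT h.decomposition)ᘁ) n)) ≤
          dimE ℚ (wtN R (tp (objT h.decomposition ⊗ (objT h.decomposition)ᘁ) n)) :=
        dimE_le_of_injective _ (incl_injective hR _)
      exact_mod_cast h5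
    have hA' : A' ≠ ⊤ := by
      intro h6
      rw [h6] at hle
      apply hA
      have h7 : (A : ℝ≥0∞) = ⊤ := top_le_iff.1 hle
      exact_mod_cast h7
    have hidem := act_idem (C := C) ℚˣ
    have hK := kimura_of_family hR' h.cplus_act hb (homN hR') (homN_stab hR') (fun {Y Z} α f hα _ =>
      map_comp_zero α hα f) h4 hA'
    exact kimura_forget hK
  · intro e n hn hlt a ha
    rw [murreD_wtF h hR]
    refine h3 e n hn ?_ a ha
    rwa [← defect_wtF h hR]

end

end Pool.Agent.Helper13GL
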