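import Pool.Agent.Helper13GL.MurreLaw

/-!
# The numerical ranks
-/

set_option autoImplicit false
set_option linter.unusedSectionVars false

open CategoryTheory Limits MonoidalCategory Module Filter Topology
open Pool.Agent.Y112.SR Pool.Agent.Y112.KD Pool.Agent.N64.AF
open Pool.Agent.Y116.MT (tr)
open Finset (range)
open scoped ENNReal

namespace Pool.Agent.Helper13GL

universe v u w t x

section

variable {C : Type u} [Category.{v} C] [Preadditive C] [MonoidalCategory C]
  [MonoidalPreadditive C] [SymmetricCategory C] [RightRigidCategory C] [Linear ℚ C]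
  [MonoidalLinear ℚ C] {K : Type w} [Field K] [Algebra ℚ K] {R : SuperRealisation C K}
  {T D : C} {d : ℕ} {π : ℕ → (T ⟶ T)}

lemma scal_one (t : ℚˣ) (a : ℕ) : ((t⁻¹ : ℚˣ) : ℚ) ^ (2 * a) * (t : ℚ) ^ (2 * a) = 1 := by
  rw [scal_pos t le_rfl, Nat.sub_self, pow_zero]

/-- The classes of weight zero. -/
lemma weight_zero (h : IsDecomposition π (2 * d)) (e a : ℕ) {α : 𝟙_ C ⟶ mot T D e a}
    (h2 : ∀ t : ℚˣ, α ≫ rhoM D π d e a t = α) : α ≫ prk D π e a (2 * a) = α := by
  have h3 : ∀ k, k ≠ 2 * a → α ≫ prk D π e a k = 0 := by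
    intro k hk
    have h3 := congrArg (fun q => q ≫ prk D π e a k) (h2 (Units.mk0 2 two_ne_zero))
    simp only [Category.assoc] at h3
    rw [rho_prk h, Linear.comp_smul] at h3
    have h4 : ((((Units.mk0 (2 : ℚ) two_ne_zero)⁻¹ : ℚˣ) : ℚ) ^ (2 * a) *
        ((Units.mk0 (2 : ℚ) two_ne_zero : ℚˣ) : ℚ) ^ k) ≠ 1 := by
      rw [Units.val_inv_eq_inv_val, Units.val_mk0, inv_pow]
      intro h5
      have h6 : (2 : ℚ) ^ k = 2 ^ (2 * a) := by
        rwa [inv_mul_eq_one₀ (by positivity), eq_comm] at h5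
      exact hk (pow_right_injective₀ (by norm_num) (by norm_num) h6)
    have h7 : ((((Units.mk0 (2 : ℚ) two_ne_zero)⁻¹ : ℚˣ) : ℚ) ^ (2 * a) *
        ((Units.mk0 (2 : ℚ) two_ne_zero : ℚˣ) : ℚ) ^ k - 1) • (α ≫ prk D π e a k) = 0 := by
      rw [sub_smul, h3, one_smul, sub_self]
    exact (smul_eq_zero.1 h7).resolve_left (sub_ne_zero.2 h4)
  calc α ≫ prk D π e a (2 * a) = ∑ k ∈ range (2 * d * e + 1 + (2 * a + 1)), α ≫ prk D π e a k := by
        rw [Finset.sum_eq_single (2 * a)]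
        · intro k _ hk
          exact h3 k hk
        · intro hk
          exact absurd (Finset.mem_range.2 (by omega)) hk
    _ = α := by
        rw [← Preadditive.comp_sum, prk_sum' h e a (by omega), Category.comp_id]

/-- The classes of weight zero as morphisms of objects with action. -/
noncomputable def actClass (h : IsDecomposition π (2 * d)) (e a : ℕ) (γ : 𝟙_ C ⟶ mot T D e a) :
    𝟙_ (Action C ℚˣ) ⟶ motG D h 2 e a :=
  ⟨γ ≫ prk D π e a (2 * a), fun t => by
    change 𝟙 (𝟙_ C) ≫ γ ≫ prk D π e a (2 * a) = (γ ≫ prk D π e a (2 * a)) ≫ rhoM D π d e a t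
    rw [Category.id_comp, Category.assoc, prk_rho h, scal_one, one_smul]⟩

/-- The functionals of weight zero. -/
noncomputable def actForm (h : IsDecomposition π (2 * d)) (e a : ℕ) (β : mot T D e a ⟶ 𝟙_ C) :
    motG D h 2 e a ⟶ 𝟙_ (Action C ℚˣ) :=
  ⟨prk D π e a (2 * a) ≫ β, fun t => by
    change rhoM D π d e a t ≫ prk D π e a (2 * a) ≫ β = (prk D π e a (2 * a) ≫ β) ≫ 𝟙 (𝟙_ C)
    rw [Category.comp_id, ← Category.assoc, rho_prk h, scal_one, one_smul]⟩

lemma act_inv (h : IsDecomposition π (2 * d)) (e a : ℕ)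
    (α : 𝟙_ (Action C ℚˣ) ⟶ motG D h 2 e a) (t : ℚˣ) :
    (show 𝟙_ C ⟶ mot T D e a from α.hom) ≫ rhoM D π d e a t = α.hom := by
  have h1 := α.comm t
  exact h1.symm.trans (Category.id_comp _)

lemma numTriv_act (h : IsDecomposition π (2 * d)) (hR : IsReal ℚ R) (e a : ℕ)
    (α : 𝟙_ (Action C ℚˣ) ⟶ motG D h 2 e a) :
    NumTriv α ↔ NumTriv (show 𝟙_ C ⟶ mot T D e a from α.hom) := by
  rw [numTriv_unit_iff (actReal_isReal (G := ℚˣ) hR), numTriv_unit_iff hR]
  constructor
  · intro h1 β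
    have h2 := congrArg Action.Hom.hom (h1 (actForm h e a β))
    have h3 : (show 𝟙_ C ⟶ mot T D e a from α.hom) ≫ prk D π e a (2 * a) ≫ β = 0 := h2
    rw [← Category.assoc, weight_zero h e a (act_inv h e a α)] at h3
    exact h3
  · intro h1 β
    exact Action.hom_ext _ _ (h1 β.hom)

/-- The underlying class. -/
noncomputable def homL (h : IsDecomposition π (2 * d)) (e a : ℕ) :
    (𝟙_ (Action C ℚˣ) ⟶ motG D h 2 e a) →ₗ[ℚ] (𝟙_ C ⟶ mot T D e a) where
  toFun α := α.hom
  map_add' _ _ := rfl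
  map_smul' _ _ := rfl

lemma IsChowKunneth.numRank_act (h : IsChowKunneth R T D d π) (hR : IsReal ℚ R) (e a : ℕ) :
    numRank ℚ (motG D h.decomposition 2 e a) = numRank ℚ (mot T D e a) := by
  let ψ := (numIdeal ℚ (𝟙_ C) (mot T D e a)).mkQ ∘ₗ homL (D := D) h.decomposition e a
  have hker : LinearMap.ker ψ = numIdeal ℚ (𝟙_ (Action C ℚˣ)) (motG D h.decomposition 2 e a) := by
    ext α
    rw [LinearMap.mem_ker, LinearMap.comp_apply, Submodule.mkQ_apply, Submodule.Quotient.mk_eq_zero,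
      mem_numIdeal, mem_numIdeal, numTriv_act h.decomposition hR]
    rfl
  have hsurj : Function.Surjective ψ := by
    intro q
    obtain ⟨γ, rfl⟩ := Submodule.Quotient.mk_surjective _ q
    refine ⟨actClass h.decomposition e a γ, ?_⟩
    rw [LinearMap.comp_apply, Submodule.mkQ_apply, Submodule.Quotient.eq, mem_numIdeal]
    refine numTriv_of_map hR ?_
    change R.H.map (γ ≫ prk D π e a (2 * a) - γ) = 0
    have h1 : γ ≫ prk D π e a (2 * a) - γ =
        -∑ k ∈ (range (2 * d * e + 1 + (2 * a + 1))).erase (2 * a), γ ≫ prk D π e a k := by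
      have h2 : ∑ k ∈ range (2 * d * e + 1 + (2 * a + 1)), γ ≫ prk D π e a k = γ := by
        rw [← Preadditive.comp_sum, prk_sum' h.decomposition e a (by omega), Category.comp_id]
      have h3 : 2 * a ∈ range (2 * d * e + 1 + (2 * a + 1)) := Finset.mem_range.2 (by omega)
      rw [← Finset.add_sum_erase _ _ h3] at h2
      rw [eq_neg_iff_add_eq_zero, sub_add_eq_add_sub, h2, sub_self]
    rw [h1, Functor.map_neg, Functor.map_sum, neg_eq_zero]
    refine Finset.sum_eq_zero fun k hk => ?_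
    exact h.degree e a k (Finset.ne_of_mem_erase hk) γ
  have e1 := (Submodule.quotEquivOfEq _ _ hker.symm) ≪≫ₗ ψ.quotKerEquivOfSurjective hsurj
  exact e1.finrank_eq

end

end Pool.Agent.Helper13GL
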